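import Mathlib

/-!
Threshold sampling with margin on a line of blocks indexed by the integers.
-/

namespace h73b

/-- A threshold `t` that keeps a distance more than `ε` from all points of `S`, modulo 1. -/
theorem generic (S : Finset ℝ) (ε : ℝ) (hε : 2 * ε * (S.card + 1) < 1) :
    ∃ t : ℝ, 0 ≤ t ∧ t < 1 ∧ ∀ x ∈ S, ∀ k : ℤ, ε < |x - (t + k)| := by
  classical
  set n : ℕ := S.card + 1 with hn
  have hn0 : (0 : ℝ) < (n : ℝ) := by positivity
  have hnz : (0 : ℤ) < (n : ℤ) := by positivity
  have h1 : (S.image (fun x => (round ((n : ℝ) * x) % (n : ℤ)).toNat)).card < (Finset.range n).card := by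
    rw [Finset.card_range]
    exact lt_of_le_of_lt Finset.card_image_le (Nat.lt_succ_self _)
  obtain ⟨j, hj, hj2⟩ := Finset.exists_mem_notMem_of_card_lt_card h1
  rw [Finset.mem_range] at hj
  refine ⟨(j : ℝ) / n, by positivity, ?_, ?_⟩
  · rw [div_lt_one hn0]
    exact_mod_cast hj
  · intro x hx k
    by_contra hcon
    have hcon' : |x - ((j : ℝ) / n + k)| ≤ ε := not_lt.mp hcon
    apply hj2
    rw [Finset.mem_image]
    refine ⟨x, hx, ?_⟩
    have h2 : |(n : ℝ) * x - ((j : ℝ) + k * n)| < 1 / 2 := by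
      have h3 : (n : ℝ) * x - ((j : ℝ) + k * n) = n * (x - ((j : ℝ) / n + k)) := by
        field_simp
      rw [h3, abs_mul, abs_of_pos hn0]
      have h4 : (n : ℝ) * |x - ((j : ℝ) / n + k)| ≤ n * ε := by
        exact mul_le_mul_of_nonneg_left hcon' hn0.le
      have h5 : (n : ℝ) * ε < 1 / 2 := by
        have : (n : ℝ) = (S.card : ℝ) + 1 := by rw [hn]; push_cast; ring
        rw [this]
        linarith
      linarith
    have h6 : round ((n : ℝ) * x) = (j : ℤ) + k * n := by
      rw [round_eq, Int.floor_eq_iff]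
      rw [abs_lt] at h2
      push_cast
      constructor <;> linarith [h2.1, h2.2]
    rw [h6]
    have h7 : ((j : ℤ) + k * n) % (n : ℤ) = j := by
      rw [Int.add_mul_emod_self_right]
      exact Int.emod_eq_of_lt (by positivity) (by exact_mod_cast hj)
    rw [h7]
    simp

/-- The number of thresholds `t, t + 1, ...` strictly left of the position `x`. -/
noncomputable def cnt (t x : ℝ) : ℤ := ⌈x - t⌉

theorem cnt_mono {t x y : ℝ} (h : x ≤ y) : cnt t x ≤ cnt t y :=
  Int.ceil_le_ceil (by linarith)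

theorem cnt_add_int (t x : ℝ) (n : ℤ) : cnt t (x + n) = cnt t x + n := by
  rw [cnt, cnt, show x + n - t = (x - t) + n by ring, Int.ceil_add_intCast]

theorem cnt_zero {t : ℝ} (h0 : 0 < t) (h1 : t < 1) : cnt t 0 = 0 := by
  rw [cnt, Int.ceil_eq_iff]
  constructor <;> push_cast <;> linarith

theorem cnt_nat {t : ℝ} (h0 : 0 < t) (h1 : t < 1) (n : ℕ) : cnt t n = n := by
  have := cnt_add_int t 0 n
  rw [cnt_zero h0 h1] at this
  simpa using this

theorem cnt_upper {t x ε : ℝ} (hx : ∀ k : ℤ, ε < |x - (t + k)|) : x - t < (cnt t x : ℝ) - ε := by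
  have h1 := Int.le_ceil (x - t)
  have h2 := hx ⌈x - t⌉
  rw [abs_of_nonpos (by linarith)] at h2
  rw [cnt]
  linarith

theorem cnt_lower {t x ε : ℝ} (hx : ∀ k : ℤ, ε < |x - (t + k)|) : (cnt t x : ℝ) - 1 + ε < x - t := by
  have h1 := Int.ceil_lt_add_one (x - t)
  have h2 := hx (⌈x - t⌉ - 1)
  push_cast at h2
  rw [abs_of_nonneg (by linarith)] at h2
  rw [cnt]
  linarith

theorem cnt_abs {t x y ε : ℝ} (hx : ∀ k : ℤ, ε < |x - (t + k)|)
    (hy : ∀ k : ℤ, ε < |y - (t + k)|) :
    |((cnt t y : ℝ) - cnt t x) - (y - x)| < 1 - 2 * ε := by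
  have h1 := cnt_upper hx
  have h2 := cnt_upper hy
  have h3 := cnt_lower hx
  have h4 := cnt_lower hy
  rw [abs_lt]
  constructor <;> linarith

/-- The mass left of block `b` (all masses are in `[-N, N)`). -/
noncomputable def pf (N : ℕ) (z : ℤ → ℝ) (b : ℤ) : ℝ := ∑ i ∈ Finset.Ico (-(N : ℤ)) b, z i

theorem pf_succ (N : ℕ) (z : ℤ → ℝ) (hz : ∀ b, b < -(N : ℤ) → z b = 0) (b : ℤ) :
    pf N z (b + 1) = pf N z b + z b := by
  rw [pf, pf]
  by_cases h : b < -(N : ℤ)
  · rw [hz b h, Finset.Ico_eq_empty (by omega), Finset.Ico_eq_empty (by omega)]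
    simp
  · have : Finset.Ico (-(N : ℤ)) (b + 1) = insert b (Finset.Ico (-(N : ℤ)) b) := by
      ext x
      simp only [Finset.mem_Ico, Finset.mem_insert]
      omega
    rw [this, Finset.sum_insert (by simp), add_comm]

theorem Ico_succ' {a b : ℤ} (h : a ≤ b) : Finset.Ico a (b + 1) = insert b (Finset.Ico a b) := by
  ext x
  simp only [Finset.mem_Ico, Finset.mem_insert]
  omega

theorem pf_sub (N : ℕ) (z : ℤ → ℝ) (hz : ∀ b, b < -(N : ℤ) → z b = 0) {a b : ℤ} (h : a ≤ b) :
    pf N z b - pf N z a = ∑ i ∈ Finset.Ico a b, z i := by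
  induction b, h using Int.leInduction with
  | base => simp
  | succ b hb ih =>
    rw [pf_succ N z hz, Ico_succ' hb, Finset.sum_insert (by simp), ← ih]
    ring

theorem pf_right (N : ℕ) (z : ℤ → ℝ) (hz : ∀ b, b < -(N : ℤ) → z b = 0)
    (hz' : ∀ b, (N : ℤ) ≤ b → z b = 0) {b : ℤ} (hb : (N : ℤ) ≤ b) : pf N z b = pf N z N := by
  have := pf_sub N z hz hb
  rw [Finset.sum_eq_zero (fun i hi => hz' i (Finset.mem_Ico.mp hi).1)] at this
  linarith

/-- **Threshold sampling.**  Block masses `z ≥ 0` supported in `[-N, N)`, total mass `τ`, margin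
`δ` with `δ (2 N + 2) < 1`, every block has mass at most `1 + δ`: there is a set `K` of `τ` blocks of
positive mass such that every interval of blocks has the right number of elements of `K`
up to an error less than `1 - δ`. -/
theorem sample (N τ : ℕ) (z : ℤ → ℝ) (δ : ℝ) (h0 : ∀ b, 0 ≤ z b)
    (hz : ∀ b, b < -(N : ℤ) → z b = 0) (hz' : ∀ b, (N : ℤ) ≤ b → z b = 0)
    (hs : ∑ b ∈ Finset.Ico (-(N : ℤ)) N, z b = τ) (hδ0 : 0 < δ) (hδ : δ * (2 * N + 2) < 1)
    (h1 : ∀ b, z b ≤ 1 + δ) :
    ∃ K : Finset ℤ, K.card = τ ∧ (∀ b ∈ K, 0 < z b) ∧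
      ∀ a b : ℤ, a ≤ b →
        |((K ∩ Finset.Ico a b).card : ℝ) - ∑ i ∈ Finset.Ico a b, z i| < 1 - δ := by
  classical
  set S : Finset ℝ := (Finset.Ico (-(N : ℤ)) (N + 1)).image (pf N z) with hS
  have hSc : (S.card : ℝ) ≤ 2 * N + 1 := by
    have h2 : S.card ≤ 2 * N + 1 := by
      refine le_trans Finset.card_image_le ?_
      rw [Int.card_Ico]
      omega
    exact_mod_cast h2
  have hgen : 2 * (δ / 2) * (S.card + 1) < 1 := by
    have : 2 * (δ / 2) * ((S.card : ℝ) + 1) ≤ δ * (2 * N + 2) := by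
      have h3 : 2 * (δ / 2) * ((S.card : ℝ) + 1) = δ * (S.card + 1) := by ring
      rw [h3]
      exact mul_le_mul_of_nonneg_left (by linarith) hδ0.le
    linarith
  obtain ⟨t, ht0, ht1, ht⟩ := generic S (δ / 2) hgen
  have hmem : ∀ b : ℤ, pf N z b ∈ S := by
    intro b
    by_cases hb : b < -(N : ℤ)
    · have h2 : pf N z b = pf N z (-(N : ℤ)) := by
        rw [pf, pf, Finset.Ico_eq_empty (by omega), Finset.Ico_eq_empty (by omega)]
      rw [h2, hS]
      exact Finset.mem_image_of_mem _ (Finset.mem_Ico.mpr ⟨le_refl _, by omega⟩)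
    · by_cases hb2 : (N : ℤ) ≤ b
      · rw [pf_right N z hz hz' hb2, hS]
        exact Finset.mem_image_of_mem _ (Finset.mem_Ico.mpr ⟨by omega, by omega⟩)
      · rw [hS]
        exact Finset.mem_image_of_mem _ (Finset.mem_Ico.mpr ⟨by omega, by omega⟩)
  have hm : ∀ b : ℤ, ∀ k : ℤ, δ / 2 < |pf N z b - (t + k)| := fun b => ht _ (hmem b)
  have hpf0 : pf N z (-(N : ℤ)) = 0 := by simp [pf]
  have htpos : 0 < t := by
    have h2 := hm (-(N : ℤ)) 0
    rw [hpf0] at h2
    rcases ht0.lt_or_eq with h | h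
    · exact h
    · rw [← h] at h2
      simp at h2
      linarith
  set c : ℤ → ℤ := fun b => cnt t (pf N z b) with hc
  have hc0 : c (-(N : ℤ)) = 0 := by
    simp only [hc, hpf0]
    exact cnt_zero htpos ht1
  have hcN : c N = τ := by
    have h2 : pf N z N = τ := by rw [pf, hs]
    simp only [hc, h2]
    exact cnt_nat htpos ht1 τ
  have hc_left : ∀ b, b < -(N : ℤ) → c b = 0 := by
    intro b hb
    have h2 : pf N z b = 0 := by rw [pf, Finset.Ico_eq_empty (by omega)]; simp
    simp only [hc, h2]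
    exact cnt_zero htpos ht1
  have hc_right : ∀ b, (N : ℤ) ≤ b → c b = τ := by
    intro b hb
    rw [← hcN]
    simp only [hc]
    rw [pf_right N z hz hz' hb]
  have habs : ∀ a b : ℤ, a ≤ b →
      |((c b : ℝ) - c a) - ∑ i ∈ Finset.Ico a b, z i| < 1 - δ := by
    intro a b hab
    have h2 := cnt_abs (hm a) (hm b)
    rw [pf_sub N z hz hab] at h2
    have h3 : (1 : ℝ) - 2 * (δ / 2) = 1 - δ := by ring
    rw [h3] at h2
    exact h2
  have hstep : ∀ b : ℤ, c (b + 1) = c b ∨ c (b + 1) = c b + 1 := by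
    intro b
    have h2 : c b ≤ c (b + 1) := by
      simp only [hc]
      apply cnt_mono
      rw [pf_succ N z hz]
      linarith [h0 b]
    have h3 := habs b (b + 1) (by omega)
    rw [Ico_succ' (le_refl b), Finset.Ico_self] at h3
    simp only [insert_empty_eq, Finset.sum_singleton] at h3
    have h4 : ((c (b + 1) : ℝ) - c b) < 2 := by
      have := (abs_lt.mp h3).2
      linarith [h1 b]
    have h5 : c (b + 1) - c b < 2 := by exact_mod_cast h4
    omega
  set K : Finset ℤ := (Finset.Ico (-(N : ℤ)) N).filter (fun b => c (b + 1) = c b + 1) with hK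
  have hKm : ∀ b : ℤ, b ∈ K ↔ c (b + 1) = c b + 1 := by
    intro b
    rw [hK, Finset.mem_filter]
    refine ⟨fun h => h.2, fun h => ⟨?_, h⟩⟩
    rw [Finset.mem_Ico]
    constructor
    · by_contra hcon
      have h2 := hc_left b (by omega)
      have h3 : c (b + 1) = 0 := by
        by_cases h4 : b + 1 < -(N : ℤ)
        · exact hc_left _ h4
        · have : b + 1 = -(N : ℤ) := by omega
          rw [this, hc0]
      omega
    · by_contra hcon
      have h2 := hc_right b (by omega)
      have h3 := hc_right (b + 1) (by omega)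
      omega
  have hcard : ∀ a b : ℤ, a ≤ b → ((K ∩ Finset.Ico a b).card : ℤ) = c b - c a := by
    intro a b hab
    induction b, hab using Int.leInduction with
    | base => simp
    | succ b hb ih =>
      rw [Ico_succ' hb]
      by_cases hbK : b ∈ K
      · rw [Finset.inter_insert_of_mem hbK, Finset.card_insert_of_notMem (by simp)]
        have := (hKm b).mp hbK
        push_cast
        rw [ih]
        omega
      · rw [Finset.inter_insert_of_notMem hbK, ih]
        rcases hstep b with h2 | h2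
        · omega
        · exact absurd ((hKm b).mpr h2) hbK
  refine ⟨K, ?_, ?_, ?_⟩
  · have h2 := hcard (-(N : ℤ)) N (by omega)
    have h3 : K ∩ Finset.Ico (-(N : ℤ)) N = K := by
      rw [Finset.inter_eq_left]
      exact Finset.filter_subset _ _
    rw [h3, hc0, hcN] at h2
    have : (K.card : ℤ) = (τ : ℤ) := by omega
    exact_mod_cast this
  · intro b hb
    rcases (h0 b).lt_or_eq with h | h
    · exact h
    · exfalso
      have h2 := (hKm b).mp hb
      have h3 : c (b + 1) = c b := by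
        simp only [hc]
        rw [pf_succ N z hz, ← h, add_zero]
      omega
  · intro a b hab
    have h2 := habs a b hab
    have h3 : ((K ∩ Finset.Ico a b).card : ℝ) = (c b : ℝ) - c a := by
      have := hcard a b hab
      exact_mod_cast this
    rw [h3]
    exact h2

end h73b
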