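import Mathlib

/-!
Choice of the slots and of the owners of the contested hubs.  Blocks and hubs are indexed by the
integers; block `2 i` consists of the triangles whose only hub is `h_i`, block `2 i + 1` is the
triangle `Q_i` with the hubs `h_i` and `h_{i+1}`.
-/

namespace h73b

/-- Input of the choice: existing blocks `ex`, hit blocks `K`, demands `RD`, `LD`. -/
structure SelIn where
  ex : ℤ → Prop
  K : ℤ → Prop
  RD : ℤ → Prop
  LD : ℤ → Prop
  Kex : ∀ b, K b → ex b
  star : ∀ i b b' : ℤ, 2 * i - 1 ≤ b → b ≤ 2 * i + 1 → 2 * i - 1 ≤ b' → b' ≤ 2 * i + 1 →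
    K b → K b' → b = b'
  ne : ∀ i, ¬ ex (2 * i) → (ex (2 * i - 1) ↔ ex (2 * i + 1))
  rd : ∀ i, RD i → (∀ b, 2 * i - 1 ≤ b → b ≤ 2 * i + 1 → ¬ K b) ∧ ex (2 * i + 1) ∧
    (K (2 * i + 2) ∨ K (2 * i + 3))
  ld : ∀ i, LD i → (∀ b, 2 * i - 1 ≤ b → b ≤ 2 * i + 1 → ¬ K b) ∧ ex (2 * i - 1) ∧
    (K (2 * i - 2) ∨ K (2 * i - 3))
  c1 : ∀ i, RD i → LD i → False
  c2 : ∀ i, K (2 * i + 1) → RD (i - 1) → LD (i + 2) → False

namespace SelIn

variable (s : SelIn)

/-- no hit in the star of `h_i` -/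
def free (i : ℤ) : Prop := ∀ b, 2 * i - 1 ≤ b → b ≤ 2 * i + 1 → ¬ s.K b

/-- the hit `Q_i` gets the slot `h_i` (and not `h_{i+1}`) -/
def toL (i : ℤ) : Prop :=
  s.RD (i - 1) ∨ (¬ s.LD (i + 2) ∧ (s.ex (2 * i) ∨ (s.free (i - 1) ∧ s.ex (2 * i - 1) ∧
    ¬ s.LD (i - 1))))

/-- `h_p` is a slot -/
def P (p : ℤ) : Prop :=
  s.K (2 * p) ∨ (s.K (2 * p + 1) ∧ s.toL p) ∨ (s.K (2 * p - 1) ∧ ¬ s.toL (p - 1))

/-- the owner of the contested hub `h_k` is the left slot `h_{k-1}` -/
def L (k : ℤ) : Prop := s.K (2 * k - 1) ∨ (¬ s.K (2 * k + 1) ∧ s.LD k)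

/-- block `b` belongs to the options of the slot `p` -/
def opt (p b : ℤ) : Prop :=
  s.ex b ∧ (b = 2 * p ∨
    (b = 2 * p + 1 ∧ ¬ s.P (p + 1) ∧ (s.P (p + 2) → s.ex (2 * p + 3) → s.L (p + 1))) ∨
    (b = 2 * p - 1 ∧ ¬ s.P (p - 1) ∧ (s.P (p - 2) → s.ex (2 * p - 3) → ¬ s.L (p - 1))))

variable {s}

theorem P_hit {p : ℤ} (h : s.P p) : ∃ b, 2 * p - 1 ≤ b ∧ b ≤ 2 * p + 1 ∧ s.K b := by
  rcases h with h | ⟨h, _⟩ | ⟨h, _⟩
  · exact ⟨_, by omega, by omega, h⟩
  · exact ⟨_, by omega, by omega, h⟩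
  · exact ⟨_, by omega, by omega, h⟩

theorem not_P_of_free {p : ℤ} (h : s.free p) : ¬ s.P p := by
  intro hp
  obtain ⟨b, h1, h2, h3⟩ := P_hit hp
  exact h b h1 h2 h3

/-- the slot of the hit `Q_i` when it goes to the left -/
theorem P_left {i : ℤ} (h : s.K (2 * i + 1)) (hL : s.toL i) : s.P i := Or.inr (Or.inl ⟨h, hL⟩)

theorem P_right {i : ℤ} (h : s.K (2 * i + 1)) (hL : ¬ s.toL i) : s.P (i + 1) := by
  refine Or.inr (Or.inr ⟨?_, ?_⟩)
  · have e : 2 * (i + 1) - 1 = 2 * i + 1 := by ring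
    rw [e]; exact h
  · have e : i + 1 - 1 = i := by ring
    rw [e]; exact hL

theorem not_P_right {i : ℤ} (h : s.K (2 * i + 1)) (hL : s.toL i) : ¬ s.P (i + 1) := by
  rintro (h1 | ⟨h1, _⟩ | ⟨h1, h2⟩)
  · have := s.star (i + 1) _ _ (by omega) (by omega) (by omega) (by omega) h h1
    omega
  · have := s.star (i + 1) _ _ (by omega) (by omega) (by omega) (by omega) h h1
    omega
  · have e : i + 1 - 1 = i := by ring
    rw [e] at h2
    exact h2 hL

theorem not_P_left {i : ℤ} (h : s.K (2 * i + 1)) (hL : ¬ s.toL i) : ¬ s.P i := by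
  rintro (h1 | ⟨_, h2⟩ | ⟨h1, _⟩)
  · have := s.star i _ _ (by omega) (by omega) (by omega) (by omega) h h1
    omega
  · exact hL h2
  · have := s.star i _ _ (by omega) (by omega) (by omega) (by omega) h h1
    omega

/-- A hit `Q_i` belongs to exactly one of the slots `h_i`, `h_{i+1}`. -/
theorem Q_hit {i : ℤ} (h : s.K (2 * i + 1)) :
    (s.P i ∧ ¬ s.P (i + 1)) ∨ (¬ s.P i ∧ s.P (i + 1)) := by
  by_cases hL : s.toL i
  · exact Or.inl ⟨P_left h hL, not_P_right h hL⟩
  · exact Or.inr ⟨not_P_left h hL, P_right h hL⟩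

/-- the hit of a slot is one of its options -/
theorem hit_opt {p b : ℤ} (hp : s.P p) (h1 : 2 * p - 1 ≤ b) (h2 : b ≤ 2 * p + 1) (hb : s.K b) :
    s.opt p b := by
  refine ⟨s.Kex b hb, ?_⟩
  have h3 : b = 2 * p - 1 ∨ b = 2 * p ∨ b = 2 * p + 1 := by omega
  rcases h3 with rfl | rfl | rfl
  · right; right
    refine ⟨rfl, ?_, ?_⟩
    · have e : 2 * p - 1 = 2 * (p - 1) + 1 := by ring
      rw [e] at hb
      rcases Q_hit hb with ⟨_, h⟩ | ⟨h, _⟩
      · have e1 : p - 1 + 1 = p := by ring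
        rw [e1] at h
        exact absurd hp h
      · exact h
    · rintro - - (hL | ⟨hL, _⟩)
      · have := s.star (p - 1) _ _ (by omega) (by omega) (by omega) (by omega) hb hL
        omega
      · apply hL
        have e : 2 * (p - 1) + 1 = 2 * p - 1 := by ring
        rw [e]; exact hb
  · left; rfl
  · right; left
    refine ⟨rfl, ?_, ?_⟩
    · rcases Q_hit hb with ⟨_, h⟩ | ⟨h, _⟩
      · exact h
      · exact absurd hp h
    · intro _ _
      left
      have e : 2 * (p + 1) - 1 = 2 * p + 1 := by ring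
      rw [e]; exact hb

/-- options of different slots have no common hub -/
theorem opt_disj {p q b b' : ℤ} (hp : s.P p) (hq : s.P q) (hpq : p ≠ q) (h1 : s.opt p b)
    (h2 : s.opt q b') (i : ℤ) (hi : 2 * i - 1 ≤ b) (hi' : b ≤ 2 * i + 1) (hj : 2 * i - 1 ≤ b')
    (hj' : b' ≤ 2 * i + 1) : False := by
  obtain ⟨e1, h1⟩ := h1
  obtain ⟨e2, h2⟩ := h2
  rcases h1 with rfl | ⟨rfl, h3, h4⟩ | ⟨rfl, h3, h4⟩ <;>
    rcases h2 with rfl | ⟨rfl, h5, h6⟩ | ⟨rfl, h5, h6⟩
  · omega
  · have : q + 1 = p := by omega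
    rw [this] at h5; exact h5 hp
  · have : q - 1 = p := by omega
    rw [this] at h5; exact h5 hp
  · have : p + 1 = q := by omega
    rw [this] at h3; exact h3 hq
  · have h7 : p + 1 = q ∨ q + 1 = p := by omega
    rcases h7 with h7 | h7
    · rw [h7] at h3; exact h3 hq
    · rw [h7] at h5; exact h5 hp
  · have h7 : p + 1 = q ∨ q = p + 2 := by omega
    rcases h7 with h7 | h7
    · rw [h7] at h3; exact h3 hq
    · subst h7
      have a1 : p + 2 - 2 = p := by ring
      have a2 : 2 * (p + 2) - 3 = 2 * p + 1 := by ring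
      have a3 : p + 2 - 1 = p + 1 := by ring
      have a4 : 2 * (p + 2) - 1 = 2 * p + 3 := by ring
      rw [a1, a2, a3] at h6
      rw [a4] at e2
      exact h6 hp e1 (h4 hq e2)
  · have : p - 1 = q := by omega
    rw [this] at h3; exact h3 hq
  · have h7 : q + 1 = p ∨ p = q + 2 := by omega
    rcases h7 with h7 | h7
    · rw [h7] at h5; exact h5 hp
    · subst h7
      have a1 : q + 2 - 2 = q := by ring
      have a2 : 2 * (q + 2) - 3 = 2 * q + 1 := by ring
      have a3 : q + 2 - 1 = q + 1 := by ring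
      have a4 : 2 * (q + 2) - 1 = 2 * q + 3 := by ring
      rw [a1, a2, a3] at h4
      rw [a4] at e1
      exact h4 hq e2 (h6 hp e1)
  · have h7 : p - 1 = q ∨ q - 1 = p := by omega
    rcases h7 with h7 | h7
    · rw [h7] at h3; exact h3 hq
    · rw [h7] at h5; exact h5 hp

/-- Every free hub next to a slot is owned by a slot (left version). -/
theorem owned_left {k : ℤ} (hk : ¬ s.P k) (h2 : s.ex (2 * k - 1)) :
    s.opt (k - 1) (2 * k - 1) ∨ (s.P (k + 1) ∧ s.opt (k + 1) (2 * k + 1)) := by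
  by_cases h3 : s.P (k + 1) ∧ s.ex (2 * k + 1) ∧ ¬ s.L k
  · obtain ⟨h3, h4, h5⟩ := h3
    refine Or.inr ⟨h3, h4, Or.inr (Or.inr ⟨by ring, ?_, ?_⟩)⟩
    · have e : k + 1 - 1 = k := by ring
      rw [e]; exact hk
    · intro _ _
      have e : k + 1 - 1 = k := by ring
      rw [e]; exact h5
  · refine Or.inl ⟨h2, Or.inr (Or.inl ⟨by ring, ?_, ?_⟩)⟩
    · have e : k - 1 + 1 = k := by ring
      rw [e]; exact hk
    · intro h4 h5
      have e : k - 1 + 1 = k := by ring
      have e2 : k - 1 + 2 = k + 1 := by ring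
      have e3 : 2 * (k - 1) + 3 = 2 * k + 1 := by ring
      rw [e]
      rw [e2] at h4
      rw [e3] at h5
      by_contra h6
      exact h3 ⟨h4, h5, h6⟩

theorem owned_right {k : ℤ} (hk : ¬ s.P k) (h2 : s.ex (2 * k + 1)) :
    s.opt (k + 1) (2 * k + 1) ∨ (s.P (k - 1) ∧ s.opt (k - 1) (2 * k - 1)) := by
  by_cases h3 : s.P (k - 1) ∧ s.ex (2 * k - 1) ∧ s.L k
  · obtain ⟨h3, h4, h5⟩ := h3
    refine Or.inr ⟨h3, h4, Or.inr (Or.inl ⟨by ring, ?_, ?_⟩)⟩
    · have e : k - 1 + 1 = k := by ring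
      rw [e]; exact hk
    · intro _ _
      have e : k - 1 + 1 = k := by ring
      rw [e]; exact h5
  · refine Or.inl ⟨h2, Or.inr (Or.inr ⟨by ring, ?_, ?_⟩)⟩
    · have e : k + 1 - 1 = k := by ring
      rw [e]; exact hk
    · intro h4 h5 h6
      have e : k + 1 - 1 = k := by ring
      have e2 : k + 1 - 2 = k - 1 := by ring
      have e3 : 2 * (k + 1) - 3 = 2 * k - 1 := by ring
      rw [e] at h6
      rw [e2] at h4
      rw [e3] at h5
      exact h3 ⟨h4, h5, h6⟩

/-- the right demand at `h_i` is met -/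
theorem rd_met {i : ℤ} (h : s.RD i) : s.P (i + 1) ∧ s.opt (i + 1) (2 * i + 1) := by
  obtain ⟨hf, hex, hK⟩ := s.rd i h
  have hP : s.P (i + 1) := by
    rcases hK with hK | hK
    · left
      have e : 2 * (i + 1) = 2 * i + 2 := by ring
      rw [e]; exact hK
    · right; left
      have e : 2 * (i + 1) + 1 = 2 * i + 3 := by ring
      rw [e]
      refine ⟨hK, Or.inl ?_⟩
      have e : i + 1 - 1 = i := by ring
      rw [e]; exact h
  refine ⟨hP, hex, Or.inr (Or.inr ⟨by ring, ?_, ?_⟩)⟩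
  · have e : i + 1 - 1 = i := by ring
    rw [e]; exact not_P_of_free hf
  · intro _ _
    have e : i + 1 - 1 = i := by ring
    rw [e]
    rintro (hL | ⟨_, hL⟩)
    · exact hf _ (by omega) (by omega) hL
    · exact s.c1 i h hL

/-- the left demand at `h_i` is met -/
theorem ld_met {i : ℤ} (h : s.LD i) : s.P (i - 1) ∧ s.opt (i - 1) (2 * i - 1) := by
  obtain ⟨hf, hex, hK⟩ := s.ld i h
  have hP : s.P (i - 1) := by
    rcases hK with hK | hK
    · left
      have e : 2 * (i - 1) = 2 * i - 2 := by ring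
      rw [e]; exact hK
    · right; right
      have e : 2 * (i - 1) - 1 = 2 * i - 3 := by ring
      rw [e]
      refine ⟨hK, ?_⟩
      have e1 : i - 1 - 1 = i - 2 := by ring
      rw [e1]
      rintro (h1 | ⟨h1, _⟩)
      · refine s.c2 (i - 2) ?_ h1 ?_
        · have e : 2 * (i - 2) + 1 = 2 * i - 3 := by ring
          rw [e]; exact hK
        · have e : i - 2 + 2 = i := by ring
          rw [e]; exact h
      · have e : i - 2 + 2 = i := by ring
        rw [e] at h1
        exact h1 h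
  refine ⟨hP, hex, Or.inr (Or.inl ⟨by ring, ?_, ?_⟩)⟩
  · have e : i - 1 + 1 = i := by ring
    rw [e]; exact not_P_of_free hf
  · intro _ _
    have e : i - 1 + 1 = i := by ring
    rw [e]
    exact Or.inr ⟨fun h1 => hf _ (by omega) (by omega) h1, h⟩

/-- A slot at the left end of its hit has another option. -/
theorem wl {p : ℤ} (hp : s.P p) (h : s.K (2 * p + 1)) :
    s.opt p (2 * p) ∨ s.opt p (2 * p - 1) := by
  have hL : s.toL p := by
    by_contra hL
    exact not_P_left h hL hp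
  rcases hL with h1 | ⟨h1, h2 | ⟨h2, h3, h4⟩⟩
  · right
    have := (rd_met h1).2
    have e : p - 1 + 1 = p := by ring
    have e2 : 2 * (p - 1) + 1 = 2 * p - 1 := by ring
    rw [e, e2] at this
    exact this
  · left
    exact ⟨h2, Or.inl rfl⟩
  · right
    refine ⟨h3, Or.inr (Or.inr ⟨rfl, not_P_of_free h2, ?_⟩)⟩
    intro _ _
    rintro (h5 | ⟨_, h5⟩)
    · exact h2 _ (by omega) (by omega) h5
    · exact h4 h5

/-- A slot at the right end of its hit has another option, or its left part is blocked. -/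
theorem wr {p : ℤ} (hp : s.P p) (h : s.K (2 * p - 1)) :
    s.opt p (2 * p) ∨ s.opt p (2 * p + 1) ∨
      (¬ s.ex (2 * p - 2) ∧ s.ex (2 * p - 3) ∧ (s.P (p - 2) ∨ (s.ex (2 * p - 5) ∧ s.P (p - 3)))) := by
  have hQ : s.K (2 * (p - 1) + 1) := by
    have e : 2 * (p - 1) + 1 = 2 * p - 1 := by ring
    rw [e]; exact h
  have hL : ¬ s.toL (p - 1) := by
    intro hL
    have := not_P_right hQ hL
    have e : p - 1 + 1 = p := by ring
    rw [e] at this
    exact this hp
  unfold toL at hL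
  have e1 : p - 1 - 1 = p - 2 := by ring
  have e2 : p - 1 + 2 = p + 1 := by ring
  have e3 : 2 * (p - 1) = 2 * p - 2 := by ring
  have e4 : 2 * (p - 1) - 1 = 2 * p - 3 := by ring
  rw [e1, e2, e4, e3] at hL
  by_cases h1 : s.LD (p + 1)
  · right; left
    have := (ld_met h1).2
    have e : p + 1 - 1 = p := by ring
    have e2 : 2 * (p + 1) - 1 = 2 * p + 1 := by ring
    rw [e, e2] at this
    exact this
  · right; right
    have h2 : ¬ s.ex (2 * p - 2) := fun h2 => hL (Or.inr ⟨h1, Or.inl h2⟩)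
    have h3 : s.ex (2 * p - 3) := by
      have e5 : 2 * (p - 1) + 1 = 2 * p - 1 := by ring
      have := s.ne (p - 1) (by rw [e3]; exact h2)
      rw [e4, e5] at this
      exact this.2 (s.Kex _ h)
    refine ⟨h2, h3, ?_⟩
    by_cases h4 : s.free (p - 2)
    · have h5 : s.LD (p - 2) := by
        by_contra h5
        exact hL (Or.inr ⟨h1, Or.inr ⟨h4, h3, h5⟩⟩)
      right
      have h6 := ld_met h5
      obtain ⟨_, h7, _⟩ := s.ld _ h5
      have e5 : p - 2 - 1 = p - 3 := by ring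
      have e6 : 2 * (p - 2) - 1 = 2 * p - 5 := by ring
      rw [e5] at h6
      rw [e6] at h7
      exact ⟨h7, h6.1⟩
    · unfold free at h4
      push Not at h4
      obtain ⟨b, h5, h6, h7⟩ := h4
      have h8 : b = 2 * p - 5 ∨ b = 2 * p - 4 ∨ b = 2 * p - 3 := by omega
      rcases h8 with rfl | rfl | rfl
      · have h9 : s.K (2 * (p - 3) + 1) := by
          have e : 2 * (p - 3) + 1 = 2 * p - 5 := by ring
          rw [e]; exact h7
        rcases Q_hit h9 with ⟨a, _⟩ | ⟨_, a⟩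
        · exact Or.inr ⟨s.Kex _ h7, a⟩
        · have e : p - 3 + 1 = p - 2 := by ring
          rw [e] at a
          exact Or.inl a
      · left
        left
        have e : 2 * (p - 2) = 2 * p - 4 := by ring
        rw [e]; exact h7
      · have := s.star (p - 1) _ _ (by omega) (by omega) (by omega) (by omega) h7 h
        omega

variable (s)

open Classical in
/-- the slot of the hit `b` -/
noncomputable def slotOf (b : ℤ) : ℤ :=
  if b % 2 = 0 then b / 2 else if s.toL ((b - 1) / 2) then (b - 1) / 2 else (b + 1) / 2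

variable {s}

theorem slotOf_star (b : ℤ) : 2 * s.slotOf b - 1 ≤ b ∧ b ≤ 2 * s.slotOf b + 1 := by
  unfold slotOf
  split_ifs <;> omega

theorem slotOf_P {b : ℤ} (hb : s.K b) : s.P (s.slotOf b) := by
  unfold slotOf
  split_ifs with h1 h2
  · left
    have e : 2 * (b / 2) = b := by omega
    rw [e]; exact hb
  · have e : 2 * ((b - 1) / 2) + 1 = b := by omega
    exact P_left (by rw [e]; exact hb) h2
  · have e : 2 * ((b - 1) / 2) + 1 = b := by omega
    have := P_right (i := (b - 1) / 2) (by rw [e]; exact hb) h2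
    have e2 : (b - 1) / 2 + 1 = (b + 1) / 2 := by omega
    rw [e2] at this
    exact this

theorem slotOf_inj {b b' : ℤ} (hb : s.K b) (hb' : s.K b') (h : s.slotOf b = s.slotOf b') :
    b = b' := by
  have h1 := slotOf_star (s := s) b
  have h2 := slotOf_star (s := s) b'
  rw [← h] at h2
  exact s.star _ _ _ h1.1 h1.2 h2.1 h2.2 hb hb'

theorem P_iff {p : ℤ} : s.P p ↔ ∃ b, s.K b ∧ s.slotOf b = p := by
  constructor
  · rintro (h | ⟨h, h1⟩ | ⟨h, h1⟩)
    · refine ⟨_, h, ?_⟩
      unfold slotOf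
      rw [if_pos (by omega)]
      omega
    · refine ⟨_, h, ?_⟩
      unfold slotOf
      have e : (2 * p + 1 - 1) / 2 = p := by omega
      rw [if_neg (by omega), e, if_pos h1]
    · refine ⟨_, h, ?_⟩
      unfold slotOf
      have e : (2 * p - 1 - 1) / 2 = p - 1 := by omega
      rw [if_neg (by omega), e, if_neg h1]
      omega
  · rintro ⟨b, hb, rfl⟩
    exact slotOf_P hb

/-- the slots as a finite set; their number is the number of the hits -/
theorem slots_finset (K : Finset ℤ) (hK : ∀ b, s.K b ↔ b ∈ K) :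
    ∃ P : Finset ℤ, P.card = K.card ∧ ∀ p, p ∈ P ↔ s.P p := by
  refine ⟨K.image s.slotOf, ?_, ?_⟩
  · apply Finset.card_image_of_injOn
    intro b hb b' hb' h
    exact slotOf_inj ((hK b).2 (by simpa using hb)) ((hK b').2 (by simpa using hb')) h
  · intro p
    rw [Finset.mem_image, P_iff]
    constructor
    · rintro ⟨b, hb, h⟩
      exact ⟨b, (hK b).2 hb, h⟩
    · rintro ⟨b, hb, h⟩
      exact ⟨b, (hK b).1 hb, h⟩

end SelIn

end h73b
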