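import Pool.Agent.H.MP_ebc13b_lc.h61b.L2.Defs
import Pool.Agent.H.MP_ebc13b_lc.h73.Samp
import Pool.Agent.H.MP_ebc13b_lc.h73.Sel

/-!
The slot system of a choice of hits and demands.
-/

namespace Pool.Agent.H.MP_ebc13b_lc.h73

open Pool.Agent.H.MP_ebc13b_lc.h61b
open h73b h73b.SelIn

open Classical in
/-- the hit of the slot `p` -/
noncomputable def hitOf (s : SelIn) (p : ℤ) : ℤ :=
  if s.K (2 * p) then 2 * p else if s.K (2 * p + 1) ∧ s.toL p then 2 * p + 1 else 2 * p - 1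

theorem hitOf_K {s : SelIn} {p : ℤ} (hp : s.P p) : s.K (hitOf s p) := by
  unfold hitOf
  split_ifs with h1 h2
  · exact h1
  · exact h2.1
  · rcases hp with h | h | h
    · exact absurd h h1
    · exact absurd h h2
    · exact h.1

theorem hitOf_range (s : SelIn) (p : ℤ) :
    hitOf s p = 2 * p - 1 ∨ hitOf s p = 2 * p ∨ hitOf s p = 2 * p + 1 := by
  unfold hitOf
  split_ifs
  · exact Or.inr (Or.inl rfl)
  · exact Or.inr (Or.inr rfl)
  · exact Or.inl rfl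

theorem slotOf_hitOf {s : SelIn} {p : ℤ} (hp : s.P p) : s.slotOf (hitOf s p) = p := by
  obtain ⟨b, hb, h⟩ := P_iff.1 hp
  have h1 := slotOf_star (s := s) b
  rw [h] at h1
  have h2 := hitOf_range s p
  have h3 := s.star p b (hitOf s p) h1.1 h1.2 (by omega) (by omega) hb (hitOf_K hp)
  rw [← h3]
  exact h

theorem hitOf_slotOf {s : SelIn} {b : ℤ} (hb : s.K b) : hitOf s (s.slotOf b) = b := by
  have hp := slotOf_P hb
  have h1 := slotOf_star (s := s) b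
  have h2 := hitOf_range s (s.slotOf b)
  exact s.star (s.slotOf b) _ b (by omega) (by omega) h1.1 h1.2 (hitOf_K hp) hb

open Classical in
/-- the slot system -/
noncomputable def mkSys (s : SelIn) (K : Finset ℤ) (z : ℤ → ℝ) (N : ℤ) (δ ε : ℝ) : Sys where
  ex := s.ex
  z := z
  K := N
  P := K.image s.slotOf
  t := hitOf s
  L := s.L
  δ := δ
  ε := ε

section

variable {s : SelIn} {K : Finset ℤ} {z : ℤ → ℝ} {N : ℤ} {δ ε : ℝ}

theorem mem_P (hK : ∀ b, s.K b ↔ b ∈ K) {p : ℤ} : p ∈ (mkSys s K z N δ ε).P ↔ s.P p := by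
  classical
  change p ∈ K.image s.slotOf ↔ _
  rw [Finset.mem_image, P_iff]
  constructor
  · rintro ⟨b, hb, h⟩
    exact ⟨b, (hK b).2 hb, h⟩
  · rintro ⟨b, hb, h⟩
    exact ⟨b, (hK b).1 hb, h⟩

theorem mk_O (hK : ∀ b, s.K b ↔ b ∈ K) {p b : ℤ} : (mkSys s K z N δ ε).O p b ↔ s.opt p b := by
  unfold Sys.O opt
  rw [mem_P hK, mem_P hK, mem_P hK, mem_P hK]
  change s.ex b ∧ (b = 2 * p ∨ (b = 2 * p + 1 ∧ ¬ s.P (p + 1) ∧
    (s.ex (2 * p + 3) → s.P (p + 2) → s.L (p + 1))) ∨ (b = 2 * p - 1 ∧ ¬ s.P (p - 1) ∧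
    (s.ex (2 * p - 3) → s.P (p - 2) → ¬ s.L (p - 1)))) ↔ _
  tauto

theorem mk_card (hK : ∀ b, s.K b ↔ b ∈ K) : (mkSys s K z N δ ε).P.card = K.card := by
  classical
  change (K.image s.slotOf).card = K.card
  apply Finset.card_image_of_injOn
  intro b hb b' hb' h
  exact slotOf_inj ((hK b).2 (by simpa using hb)) ((hK b').2 (by simpa using hb')) h

/-- the sum over the slots is a sum over the hits -/
theorem mk_sum (hK : ∀ b, s.K b ↔ b ∈ K) {M : Type*} [AddCommMonoid M] (f : ℤ → M) :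
    ∑ p ∈ (mkSys s K z N δ ε).P, f ((mkSys s K z N δ ε).t p) = ∑ b ∈ K, f b := by
  classical
  change ∑ p ∈ K.image s.slotOf, f (hitOf s p) = _
  rw [Finset.sum_image]
  · exact Finset.sum_congr rfl fun b hb => by rw [hitOf_slotOf ((hK b).2 hb)]
  · intro b hb b' hb' h
    exact slotOf_inj ((hK b).2 (by simpa using hb)) ((hK b').2 (by simpa using hb')) h

theorem mk_N (hK : ∀ b, s.K b ↔ b ∈ K) (a b : ℤ) :
    (mkSys s K z N δ ε).N a b = ((K ∩ Finset.Ico a b).card : ℤ) := by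
  classical
  unfold Sys.N
  congr 1
  apply Finset.card_bij (fun p _ => hitOf s p)
  · intro p hp
    rw [Finset.mem_filter] at hp
    obtain ⟨h1, h2, h3⟩ := hp
    rw [Finset.mem_inter, Finset.mem_Ico]
    exact ⟨(hK _).1 (hitOf_K ((mem_P hK).1 h1)), h2, h3⟩
  · intro p hp q hq h
    rw [Finset.mem_filter] at hp hq
    have h1 := slotOf_hitOf ((mem_P hK).1 hp.1)
    have h2 := slotOf_hitOf ((mem_P hK).1 hq.1)
    rw [← h1, ← h2, h]
  · intro x hx
    rw [Finset.mem_inter, Finset.mem_Ico] at hx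
    have h1 := (hK x).2 hx.1
    refine ⟨s.slotOf x, ?_, hitOf_slotOf h1⟩
    rw [Finset.mem_filter]
    refine ⟨(mem_P hK).2 (slotOf_P h1), ?_⟩
    change a ≤ hitOf s (s.slotOf x) ∧ hitOf s (s.slotOf x) < b
    rw [hitOf_slotOf h1]
    exact hx.2

/-- The axioms hold. -/
theorem mk_ok (hK : ∀ b, s.K b ↔ b ∈ K) (z0 : ∀ b, 0 ≤ z b) (zex : ∀ b, ¬ s.ex b → z b = 0)
    (bd : ∀ b, s.ex b → -N ≤ b ∧ b ≤ N)
    (star : ∀ i, z (2 * i - 1) + z (2 * i) + z (2 * i + 1) ≤ 1 + ε)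
    (cnt : ∀ a b : ℤ, a ≤ b →
      |((K ∩ Finset.Ico a b).card : ℝ) - ∑ i ∈ Finset.Ico a b, z i| < 1 - 2 * δ)
    (tot : ∑ x ∈ Finset.Icc (-N) N, z x = (K.card : ℝ))
    (ε0 : 0 ≤ ε) (δε : 8 * ε ≤ δ) (δ0 : 0 < δ) : (mkSys s K z N δ ε).Ok where
  z0 := z0
  zex := zex
  bd := bd
  hub := s.ne
  star := star
  tst := fun p _ => hitOf_range s p
  tO := by
    intro p hp
    rw [mk_O hK]
    have h1 := (mem_P hK).1 hp
    have h2 := hitOf_range s p
    exact hit_opt h1 (by change 2 * p - 1 ≤ hitOf s p; omega)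
      (by change hitOf s p ≤ 2 * p + 1; omega) (hitOf_K h1)
  cnt1 := by
    intro a b hab
    have h1 := (abs_lt.1 (cnt a b hab)).2
    rw [mk_N hK]
    change (((K ∩ Finset.Ico a b).card : ℤ) : ℝ) ≤ (∑ x ∈ Finset.Ico a b, z x) + 1 - 2 * δ
    push_cast
    linarith
  cnt2 := by
    intro a b hab
    have h1 := (abs_lt.1 (cnt a b hab)).1
    rw [mk_N hK]
    change (∑ x ∈ Finset.Ico a b, z x) - 1 + 2 * δ ≤ (((K ∩ Finset.Ico a b).card : ℤ) : ℝ)
    push_cast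
    linarith
  tot := by
    rw [mk_card hK]
    exact tot
  WL := by
    intro p hp ht
    left
    have h1 := (mem_P hK).1 hp
    have h2 : s.K (2 * p + 1) := by
      have h3 := hitOf_K h1
      change hitOf s p = 2 * p + 1 at ht
      rw [ht] at h3
      exact h3
    rcases wl h1 h2 with h | h
    · exact ⟨2 * p, by omega, (mk_O hK).2 h⟩
    · exact ⟨2 * p - 1, by omega, (mk_O hK).2 h⟩
  WR := by
    intro p hp ht
    have h1 := (mem_P hK).1 hp
    have h2 : s.K (2 * p - 1) := by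
      have h3 := hitOf_K h1
      change hitOf s p = 2 * p - 1 at ht
      rw [ht] at h3
      exact h3
    rcases wr h1 h2 with h | h | ⟨h, _, h3⟩
    · exact Or.inl ⟨2 * p, by omega, (mk_O hK).2 h⟩
    · exact Or.inl ⟨2 * p + 1, by omega, (mk_O hK).2 h⟩
    · refine Or.inr ⟨h, ?_⟩
      rcases h3 with h3 | ⟨h3, h4⟩
      · exact Or.inl ((mem_P hK).2 h3)
      · exact Or.inr ⟨h3, (mem_P hK).2 h4⟩
  ε0 := ε0
  δε := δε
  δ0 := δ0

theorem mk_free (hK : ∀ b, s.K b ↔ b ∈ K) {j : ℤ} (h : (mkSys s K z N δ ε).Free j) :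
    ∀ b, 2 * j - 1 ≤ b → b ≤ 2 * j + 1 → b ∉ K := by
  intro b h1 h2 hb
  have h3 := (hK b).2 hb
  have h4 := h (s.slotOf b) ((mem_P hK).2 (slotOf_P h3))
  change hitOf s (s.slotOf b) ≠ 2 * j - 1 ∧ hitOf s (s.slotOf b) ≠ 2 * j ∧
    hitOf s (s.slotOf b) ≠ 2 * j + 1 at h4
  rw [hitOf_slotOf h3] at h4
  omega

theorem mk_hit (hK : ∀ b, s.K b ↔ b ∈ K) {p : ℤ} (hp : p ∈ (mkSys s K z N δ ε).P) :
    (mkSys s K z N δ ε).t p ∈ K := (hK _).1 (hitOf_K ((mem_P hK).1 hp))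

end

end Pool.Agent.H.MP_ebc13b_lc.h73
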