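import Pool.Agent.H.MP_ebc13b_lc.h73.Dem
import Pool.Agent.H.MP_ebc13b_lc.h73.SysMk

/-!
Existence of a slot system whose demands are met.
-/

namespace Pool.Agent.H.MP_ebc13b_lc.h73

open Pool.Agent.H.MP_ebc13b_lc.h46
open Pool.Agent.H.MP_ebc13b_lc.h53
open Pool.Agent.H.MP_ebc13b_lc.h61b
open h73b h73b.SelIn

variable {α : Type*} [DecidableEq α] {G : SimpleGraph α} {A : Finset α} {col : α → ZMod 3}

/-- `S` is a slot system on the blocks of `Z` with the block masses `z`. -/
structure On (Z : ZLine G A col) (z : ℤ → ℝ) (N : ℤ) (δ ε : ℝ) (S : Sys) : Prop where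
  ok : S.Ok
  ex : S.ex = fun b => (Z.bl b).Nonempty
  z : S.z = z
  K : S.K = N
  δ : S.δ = δ
  ε : S.ε = ε

/-- the left demands are met -/
def DemL (Z : ZLine G A col) (S : Sys) : Prop :=
  ∀ i, S.Free i → Z.lk (i - 1) → (∃ p ∈ S.P, S.t p = 2 * i - 2 ∨ S.t p = 2 * i - 3) →
    ∀ E, Stab G A E → (∀ v ∈ E, col v = col (Z.h i) + 1) → Z.mid (i - 1) ∈ E →
      cc G A E < ∑ p ∈ S.P, mn Z E (S.t p) → i - 1 ∈ S.P ∧ S.O (i - 1) (2 * i - 1)

/-- the right demands are met -/
def DemR (Z : ZLine G A col) (S : Sys) : Prop :=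
  ∀ i, S.Free i → Z.lk i → (∃ p ∈ S.P, S.t p = 2 * i + 2 ∨ S.t p = 2 * i + 3) →
    ∀ D, Stab G A D → (∀ v ∈ D, col v = col (Z.h i) + 2) → Z.mid i ∈ D →
      cc G A D < ∑ p ∈ S.P, mn Z D (S.t p) → i + 1 ∈ S.P ∧ S.O (i + 1) (2 * i + 1)

/-- **Existence of the slot system.** -/
theorem exists_sys (Z : ZLine G A col) (hC : PC G A col) (z : ℤ → ℝ) (τ N : ℕ) (δ ε : ℝ)
    (z0 : ∀ b, 0 ≤ z b) (zex : ∀ b, ¬ (Z.bl b).Nonempty → z b = 0)
    (bd : ∀ b, (Z.bl b).Nonempty → -(N : ℤ) ≤ b ∧ b ≤ N)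
    (star : ∀ i, z (2 * i - 1) + z (2 * i) + z (2 * i + 1) ≤ 1 + ε)
    (tot : ∑ x ∈ Finset.Icc (-(N : ℤ)) N, z x = (τ : ℝ))
    (ε0 : 0 ≤ ε) (δε : 8 * ε ≤ δ) (δ0 : 0 < δ) (hδ : 2 * δ * (2 * N + 4) < 1)
    (hLow : ∀ S : Sys, On Z z N δ ε S → ∀ X, Stab G A X →
      ∑ p ∈ S.P, mn Z X (S.t p) ≤ cc G A X + 2) :
    ∃ S : Sys, On Z z N δ ε S ∧ S.P.card = τ ∧ DemL Z S ∧ DemR Z S := by
  classical
  have hout : ∀ b : ℤ, (b < -(N : ℤ) ∨ (N : ℤ) < b) → z b = 0 := by
    intro b hb
    apply zex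
    intro hne
    have := bd b hne
    omega
  have hsum : ∑ b ∈ Finset.Ico (-((N + 1 : ℕ) : ℤ)) ((N + 1 : ℕ) : ℤ), z b = τ := by
    rw [← tot]
    symm
    apply Finset.sum_subset
    · intro x hx
      rw [Finset.mem_Icc] at hx
      rw [Finset.mem_Ico]
      push_cast
      omega
    · intro x _ hx
      apply hout
      rw [Finset.mem_Icc] at hx
      omega
  obtain ⟨K, hKc, hKz, hKcnt⟩ := sample (N + 1) τ z (2 * δ) z0
    (fun b hb => hout b (Or.inl (by push_cast at hb; omega)))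
    (fun b hb => hout b (Or.inr (by push_cast at hb; omega))) hsum (by linarith)
    (by push_cast; linarith) (by
      intro b
      rcases Int.emod_two_eq_zero_or_one b with h | h
      · have h1 := star (b / 2)
        have e : 2 * (b / 2) = b := by omega
        rw [e] at h1
        have h2 := z0 (b - 1)
        have h3 := z0 (b + 1)
        linarith
      · have h1 := star ((b + 1) / 2)
        have e : 2 * ((b + 1) / 2) = b + 1 := by omega
        have e2 : b + 1 - 1 = b := by ring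
        rw [e, e2] at h1
        have h2 := z0 (b + 1)
        have h3 := z0 (b + 1 + 1)
        linarith)
  have hHits : Hits Z K := by
    constructor
    · intro b hb
      by_contra hne
      have h1 := hKz b hb
      rw [zex b hne] at h1
      exact lt_irrefl _ h1
    · intro i b b' hb hb' hbK hbK'
      by_contra hne
      have h1 := (abs_lt.1 (hKcnt (2 * i - 1) (2 * i + 2) (by omega))).2
      have h2 : ∑ x ∈ Finset.Ico (2 * i - 1) (2 * i + 2), z x =
          z (2 * i - 1) + z (2 * i) + z (2 * i + 1) := by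
        have : Finset.Ico (2 * i - 1) (2 * i + 2) = {2 * i - 1, 2 * i, 2 * i + 1} := by
          ext x
          simp only [Finset.mem_Ico, Finset.mem_insert, Finset.mem_singleton]
          omega
        rw [this, Finset.sum_insert, Finset.sum_insert, Finset.sum_singleton, ← add_assoc]
        · simp only [Finset.mem_singleton]; omega
        · simp only [Finset.mem_insert, Finset.mem_singleton]; omega
      rw [h2] at h1
      have h3 := star i
      have h4 : ((K ∩ Finset.Ico (2 * i - 1) (2 * i + 2)).card : ℝ) < 2 := by linarith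
      have h5 : (K ∩ Finset.Ico (2 * i - 1) (2 * i + 2)).card < 2 := by exact_mod_cast h4
      have h6 : 1 < (K ∩ Finset.Ico (2 * i - 1) (2 * i + 2)).card := by
        rw [Finset.one_lt_card]
        rw [inS_iff] at hb hb'
        refine ⟨b, ?_, b', ?_, hne⟩
        · rw [Finset.mem_inter, Finset.mem_Ico]
          exact ⟨hbK, by omega, by omega⟩
        · rw [Finset.mem_inter, Finset.mem_Ico]
          exact ⟨hbK', by omega, by omega⟩
      omega
  have hKtot : ∑ x ∈ Finset.Icc (-(N : ℤ)) N, z x = (K.card : ℝ) := by rw [hKc]; exact tot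
  -- the preliminary system
  have hL : Low Z K := by
    let s0 : SelIn :=
      { ex := fun b => (Z.bl b).Nonempty
        K := fun b => b ∈ K
        RD := fun _ => False
        LD := fun _ => False
        Kex := hHits.ne
        star := by
          intro i b b' h1 h2 h3 h4 h5 h6
          exact hHits.star i b b' (inS_iff.2 ⟨h1, h2⟩) (inS_iff.2 ⟨h3, h4⟩) h5 h6
        ne := fun i h => Z.ne i h
        rd := fun _ h => h.elim
        ld := fun _ h => h.elim
        c1 := fun _ h _ => h.elim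
        c2 := fun _ _ h _ => h.elim }
    have hK0 : ∀ b, s0.K b ↔ b ∈ K := fun b => Iff.rfl
    have hok : (mkSys s0 K z N δ ε).Ok :=
      mk_ok hK0 z0 zex bd star hKcnt hKtot ε0 δε δ0
    intro X hX
    have h1 := hLow (mkSys s0 K z N δ ε) ⟨hok, rfl, rfl, rfl, rfl, rfl⟩ X hX
    rw [mk_sum hK0] at h1
    unfold slb
    linarith
  have hK1 : ∀ b, (selIn hC hHits hL).K b ↔ b ∈ K := fun b => Iff.rfl
  have hok : (mkSys (selIn hC hHits hL) K z N δ ε).Ok :=
    mk_ok hK1 z0 zex bd star hKcnt hKtot ε0 δε δ0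
  refine ⟨mkSys (selIn hC hHits hL) K z N δ ε, ⟨hok, rfl, rfl, rfl, rfl, rfl⟩, ?_, ?_, ?_⟩
  · rw [mk_card hK1]
    exact hKc
  · intro i hf hlk hhit E hE hEc hEm hlt
    have h1 : LDm Z K i := by
      refine ⟨fun b hb => mk_free hK1 hf b (inS_iff.1 hb).1 (inS_iff.1 hb).2, hlk, ?_, E, hE, hEc,
        hEm, ?_⟩
      · obtain ⟨p, hp, h2⟩ := hhit
        have h3 := mk_hit hK1 hp
        rcases h2 with h2 | h2
        · rw [h2] at h3; exact Or.inl h3
        · rw [h2] at h3; exact Or.inr h3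
      · rw [mk_sum hK1] at hlt
        unfold slb
        linarith
    have h2 := ld_met (s := selIn hC hHits hL) h1
    exact ⟨(mem_P hK1).2 h2.1, (mk_O hK1).2 h2.2⟩
  · intro i hf hlk hhit E hE hEc hEm hlt
    have h1 : RDm Z K i := by
      refine ⟨fun b hb => mk_free hK1 hf b (inS_iff.1 hb).1 (inS_iff.1 hb).2, hlk, ?_, E, hE, hEc,
        hEm, ?_⟩
      · obtain ⟨p, hp, h2⟩ := hhit
        have h3 := mk_hit hK1 hp
        rcases h2 with h2 | h2
        · rw [h2] at h3; exact Or.inl h3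
        · rw [h2] at h3; exact Or.inr h3
      · rw [mk_sum hK1] at hlt
        unfold slb
        linarith
    have h2 := rd_met (s := selIn hC hHits hL) h1
    exact ⟨(mem_P hK1).2 h2.1, (mk_O hK1).2 h2.2⟩

end Pool.Agent.H.MP_ebc13b_lc.h73
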