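import Pool.Agent.H.MP_ebc13b_lc.h46.Tri
import Pool.Agent.H.MP_ebc13b_lc.h46.Row
import Pool.Agent.H.MP_ebc13b_lc.h53.Alp

/-!
Triangle masses with the exact total from an approximate solution of the linear program.
-/

namespace Pool.Agent.H.MP_ebc13b_lc.h73

open Pool.Agent.H.MP_ebc13b_lc.h46
open Pool.Agent.H.MP_ebc13b_lc.h53

variable {α : Type*} [DecidableEq α] {G : SimpleGraph α} {A : Finset α}

/-- the edges at a stable set go to its neighbours -/
theorem yf_row {w : α → ℝ} {y : α → α → ℝ} (h : YF G A w y) {D : Finset α} (hD : Stab G A D) :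
    ∑ v ∈ D, w v ≤ ∑ v ∈ nb G A D, w v := by
  classical
  have h1 : ∀ v ∈ D, w v = ∑ u ∈ nb G A D, y v u := by
    intro v hv
    rw [← h.sum v (hD.1 hv)]
    symm
    apply Finset.sum_subset nb_sub
    intro u hu hu'
    by_contra hne
    have h2 := (h.yE v u hne).1
    exact hu' (mem_nb.2 ⟨hu, v, hv, h2.symm⟩)
  rw [Finset.sum_congr rfl h1, Finset.sum_comm]
  refine Finset.sum_le_sum fun u hu => ?_
  rw [← h.sum u (nb_sub hu)]
  calc ∑ v ∈ D, y v u = ∑ v ∈ D, y u v := Finset.sum_congr rfl fun v _ => h.ysymm v u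
    _ ≤ ∑ v ∈ A, y u v := Finset.sum_le_sum_of_subset_of_nonneg hD.1 fun v _ _ => h.y0 u v

/-- the left hand side of a row in terms of the loads -/
theorem row_ld (z : Finset α → ℝ) (D : Finset α) :
    ∑ T ∈ A.powerset, z T * (MM G A D T : ℝ) =
      ∑ v ∈ nb G A D, ld A z v - ∑ v ∈ D, ld A z v := by
  classical
  have h1 : ∀ (X : Finset α), ∑ v ∈ X, ld A z v =
      ∑ T ∈ A.powerset, z T * ((T ∩ X).card : ℝ) := by
    intro X
    unfold ld
    rw [Finset.sum_comm]
    refine Finset.sum_congr rfl fun T _ => ?_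
    rw [← Finset.sum_filter, Finset.sum_const, nsmul_eq_mul, mul_comm]
    congr 2
    have : X.filter (fun v => v ∈ T) = T ∩ X := by
      ext v
      simp only [Finset.mem_filter, Finset.mem_inter]
      tauto
    rw [this]
  rw [h1, h1, ← Finset.sum_sub_distrib]
  refine Finset.sum_congr rfl fun T _ => ?_
  unfold MM
  push_cast
  ring

theorem ld_le_sum {z : Finset α → ℝ} (h : ∀ T, 0 ≤ z T) (v : α) :
    ld A z v ≤ ∑ T ∈ A.powerset, z T := by
  unfold ld
  refine Finset.sum_le_sum fun T _ => ?_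
  split_ifs
  · exact le_rfl
  · exact h T

theorem row_nonneg {z : Finset α → ℝ} (h : ZT G A z) {D : Finset α} (hD : Stab G A D) :
    0 ≤ ∑ T ∈ A.powerset, z T * (MM G A D T : ℝ) := by
  refine Finset.sum_nonneg fun T _ => ?_
  by_cases h0 : z T = 0
  · rw [h0, zero_mul]
  · have hT := h.2 T h0
    have := MM_nonneg hD hT.1 hT.2
    exact mul_nonneg (h.1 T) (by exact_mod_cast this)

theorem row_le3 {z : Finset α → ℝ} (h : ZT G A z) (D : Finset α) :
    ∑ T ∈ A.powerset, z T * (MM G A D T : ℝ) ≤ 3 * ∑ T ∈ A.powerset, z T := by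
  rw [Finset.mul_sum]
  refine Finset.sum_le_sum fun T _ => ?_
  by_cases h0 : z T = 0
  · rw [h0]; simp
  · have hT := h.2 T h0
    have h1 := MM_le (A := A) (D := D) hT.2
    have h2 : (MM G A D T : ℝ) ≤ 3 := by exact_mod_cast h1
    nlinarith [h.1 T]

/-- **Preparation.** -/
theorem alp_prep {t : ℕ} {e : ℝ} (h : ALP G A t e) (he : e < 1) :
    ∃ z : Finset α → ℝ, ZT G A z ∧ ∑ T ∈ A.powerset, z T = (t : ℝ) ∧
      (∀ v ∈ A, ld A z v ≤ 1 + e) ∧
      ∀ D, Stab G A D → ∑ T ∈ A.powerset, z T * (MM G A D T : ℝ) ≤ (cc G A D : ℝ) + 4 * e := by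
  classical
  obtain ⟨z, y, s, hz, hs, hy, herr⟩ := h
  set σ : ℝ := ∑ T ∈ A.powerset, z T with hσ
  have hσ0 : 0 ≤ σ := Finset.sum_nonneg fun T _ => hz.1 T
  have hs0 : 0 ≤ ∑ v ∈ A, s v := Finset.sum_nonneg fun v _ => hs v
  have habs : |σ - t| ≤ e := by linarith
  have he0 : 0 ≤ e := le_trans (abs_nonneg _) habs
  have hsle : ∑ v ∈ A, s v ≤ e := by linarith [abs_nonneg (σ - t)]
  have hld1 : ∀ v ∈ A, ld A z v ≤ 1 := by
    intro v hv
    have := hy.w0 hv
    linarith [hs v]
  have hrow : ∀ D, Stab G A D →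
      ∑ T ∈ A.powerset, z T * (MM G A D T : ℝ) ≤ (cc G A D : ℝ) + e := by
    intro D hD
    have h1 := yf_row hy hD
    rw [row_ld z D]
    rw [Finset.sum_sub_distrib, Finset.sum_sub_distrib, Finset.sum_sub_distrib,
      Finset.sum_sub_distrib] at h1
    simp only [Finset.sum_const, nsmul_eq_mul, mul_one] at h1
    have h2 : 0 ≤ ∑ v ∈ nb G A D, s v := Finset.sum_nonneg fun v _ => hs v
    have h3 : ∑ v ∈ D, s v ≤ ∑ v ∈ A, s v :=
      Finset.sum_le_sum_of_subset_of_nonneg hD.1 fun v _ _ => hs v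
    unfold cc
    push_cast
    linarith
  set c : ℝ := t / σ with hc
  have hc0 : 0 ≤ c := div_nonneg (Nat.cast_nonneg t) hσ0
  have hcσ : c * σ = t := by
    by_cases h0 : σ = 0
    · rw [h0, mul_zero]
      rw [h0, zero_sub, abs_neg, Nat.abs_cast] at habs
      have : (t : ℝ) < 1 := lt_of_le_of_lt habs he
      have : t < 1 := by exact_mod_cast this
      have : t = 0 := by omega
      rw [this]
      simp
    · rw [hc]
      field_simp
  have hcs : (c - 1) * σ ≤ e := by
    have : (c - 1) * σ = t - σ := by rw [sub_mul, hcσ, one_mul]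
    rw [this]
    linarith [(abs_le.1 habs).1]
  refine ⟨fun T => c * z T, ⟨fun T => mul_nonneg hc0 (hz.1 T), fun T hT => hz.2 T ?_⟩, ?_, ?_, ?_⟩
  · intro h0
    exact hT (by simp [h0])
  · rw [← Finset.mul_sum]
    exact hcσ
  · intro v hv
    have h1 : ld A (fun T => c * z T) v = c * ld A z v := by
      unfold ld
      rw [Finset.mul_sum]
      refine Finset.sum_congr rfl fun T _ => ?_
      split_ifs <;> simp
    rw [h1]
    have h2 : 0 ≤ ld A z v := Finset.sum_nonneg fun T _ => by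
      split_ifs
      · exact hz.1 T
      · exact le_rfl
    have h3 := ld_le_sum (A := A) hz.1 v
    by_cases hc1 : c ≤ 1
    · nlinarith [hld1 v hv]
    · have hc1' : 0 ≤ c - 1 := by linarith
      have h4 : (c - 1) * ld A z v ≤ (c - 1) * σ := mul_le_mul_of_nonneg_left h3 hc1'
      linarith [hld1 v hv]
  · intro D hD
    have h1 : ∑ T ∈ A.powerset, c * z T * (MM G A D T : ℝ) =
        c * ∑ T ∈ A.powerset, z T * (MM G A D T : ℝ) := by
      rw [Finset.mul_sum]
      exact Finset.sum_congr rfl fun T _ => by ring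
    rw [h1]
    have h2 := row_nonneg hz hD
    have h3 := hrow D hD
    have h4 := row_le3 hz D
    by_cases hc1 : c ≤ 1
    · have h5 : c * ∑ T ∈ A.powerset, z T * (MM G A D T : ℝ) ≤
          1 * ∑ T ∈ A.powerset, z T * (MM G A D T : ℝ) := mul_le_mul_of_nonneg_right hc1 h2
      linarith
    · have hc1' : 0 ≤ c - 1 := by linarith
      have h5 : (c - 1) * ∑ T ∈ A.powerset, z T * (MM G A D T : ℝ) ≤ (c - 1) * (3 * σ) :=
        mul_le_mul_of_nonneg_left h4 hc1'
      linarith

end Pool.Agent.H.MP_ebc13b_lc.h73
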