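import Pool.Agent.H.MP_ebc13b_lc.h73.Rw
import Pool.Agent.H.MP_ebc13b_lc.h73.Prep
import Pool.Agent.H.MP_ebc13b_lc.h46.ICsys

/-!
The constructed slot systems satisfy the requirements of the interior core part.
-/

namespace Pool.Agent.H.MP_ebc13b_lc.h73

open Pool.Agent.H.MP_ebc13b_lc.h46
open Pool.Agent.H.MP_ebc13b_lc.h53
open Pool.Agent.H.MP_ebc13b_lc.h61b

variable {α : Type*} [DecidableEq α] {G : SimpleGraph α} {A : Finset α} {col : α → ZMod 3}
  {Z : ZLine G A col}

theorem sysOK_of {S : Sys} {z : Finset α → ℝ} {N : ℤ} {δ ε : ℝ} (hon : On Z (zb Z z) N δ ε S)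
    (hz : ZT G A z)
    (hrow : ∀ D, Stab G A D → ∑ T ∈ A.powerset, z T * (MM G A D T : ℝ) ≤ (cc G A D : ℝ) + ε) :
    SysOK Z (Psl Z S) (Osl Z S) z ε (2 * δ) := by
  have hok := hon.ok
  have hex := hon.ex
  have hε0 : 0 ≤ ε := by rw [← hon.ε]; exact hok.ε0
  have hδ0 : 0 < δ := by rw [← hon.δ]; exact hok.δ0
  have hδε : 8 * ε ≤ δ := by rw [← hon.δ, ← hon.ε]; exact hok.δε
  have bd : ∀ b, (Z.bl b).Nonempty → -N ≤ b ∧ b ≤ N := by
    intro b hb
    have := hok.bd b (by rw [hex]; exact hb)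
    rw [hon.K] at this
    exact this
  have hzb : ∀ b, S.z b = ∑ T ∈ Z.bl b, z T := fun b => by rw [hon.z]; rfl
  refine
    { slots := slots_sl hok hex
      ne := ne_sl hok hex
      hub := hub_sl hok hex
      z0 := hz.1
      zT := hz.2
      tot := ?_
      row := hrow
      star := ?_
      blk := ?_
      gapR := ?_
      gapL := ?_
      ownL := ?_
      ownR := ?_
      e0 := hε0
      ek := by linarith }
  · have htot : ∑ T ∈ A.powerset, z T = (S.P.card : ℝ) := by
      rw [sum_blocks' bd hz.2, ← hok.tot, hon.K, hon.z]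
    rw [htot, card_Psl hok hex]
    linarith
  · intro i
    have := hok.star i
    rw [hzb, hzb, hzb, hon.ε] at this
    exact this
  · intro i hre hi T hT
    rw [mem_Osl hok hex ((mem_Psl hok hex hre).1 hi)]
    exact ⟨2 * i, ⟨by rw [hex]; exact ⟨T, hT⟩, Or.inl rfl⟩, hT⟩
  · intro i hi hl hQ
    have hi' := (mem_Psl hok hex (Z.lk_re hl)).1 hi
    have h1 := gap_right hok hi' ((Q_Osl hok hex hi' hl).1 hQ)
    rw [hzb, hzb, hon.δ] at h1
    exact h1
  · intro i hi hl hQ
    have hre := Z.lk_re1 hl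
    have e : i - 1 + 1 = i := by ring
    rw [e] at hre
    have hi' := (mem_Psl hok hex hre).1 hi
    have h2 := (Q_Osl hok hex hi' hl).1 hQ
    have e2 : 2 * (i - 1) + 1 = 2 * i - 1 := by ring
    rw [e2] at h2
    have h1 := gap_left hok hi' h2
    rw [hzb, hzb, hon.δ] at h1
    exact h1
  · intro i hi hl hQ
    have hre := Z.lk_re1 hl
    have hre1 := Z.lk_re hl
    have e : i - 1 + 1 = i := by ring
    rw [e] at hre
    have hi' := (mem_Psl hok hex hre).1 hi
    have e2 : 2 * (i - 1) + 1 = 2 * i - 1 := by ring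
    have hex' : S.ex (2 * i - 1) := by
      rw [hex, ← e2]
      exact hl
    have hnO : ¬ S.O i (2 * i - 1) := by
      intro h
      apply hQ
      rw [Q_Osl hok hex hi' hl, e2]
      exact h
    rcases own_left hex' hnO with h | ⟨h1, h2⟩
    · exact Or.inl ((mem_Psl hok hex hre1).2 h)
    · right
      have e3 : 2 * (i - 2) + 1 = 2 * i - 3 := by ring
      have hl2 : Z.lk (i - 2) := by
        have := h2.1
        rw [hex, ← e3] at this
        exact this
      refine ⟨(mem_Psl hok hex (Z.lk_re hl2)).2 h1, hl2, ?_⟩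
      rw [Q_Osl hok hex h1 hl2, e3]
      exact h2
  · intro i hi hl hQ
    have hre := Z.lk_re hl
    have hre1 := Z.lk_re1 hl
    have hi' := (mem_Psl hok hex hre).1 hi
    have hex' : S.ex (2 * i + 1) := by
      rw [hex]
      exact hl
    have hnO : ¬ S.O i (2 * i + 1) := by
      intro h
      apply hQ
      rw [Q_Osl hok hex hi' hl]
      exact h
    rcases own_right hex' hnO with h | ⟨h1, h2⟩
    · exact Or.inl ((mem_Psl hok hex hre1).2 h)
    · right
      have e3 : 2 * (i + 1) + 1 = 2 * i + 3 := by ring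
      have hl2 : Z.lk (i + 1) := by
        have := h2.1
        rw [hex, ← e3] at this
        exact this
      have hre2 := Z.lk_re1 hl2
      have e4 : i + 1 + 1 = i + 2 := by ring
      rw [e4] at hre2
      refine ⟨(mem_Psl hok hex hre2).2 h1, hl2, ?_⟩
      rw [Q_Osl hok hex h1 hl2, e3]
      exact h2

end Pool.Agent.H.MP_ebc13b_lc.h73
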