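import Pool.Agent.H.MP_ebc13b_lc.h73.LowIC
import Pool.Agent.H.MP_ebc13b_lc.h73.SysOKb
import Pool.Agent.H.MP_ebc13b_lc.h61b.L1.NicRow
import Pool.Agent.H.MP_ebc13b_lc.h61b.L1.MaxB
import Pool.Agent.H.MP_ebc13b_lc.h46.FT2
import Pool.Agent.H.MP_ebc13b_lc.h46.Hered
import Pool.Agent.H.MP_ebc13b_lc.h46.Round

/-!
From an approximate solution of the linear program to a feasible slot system.
-/

namespace Pool.Agent.H.MP_ebc13b_lc.h73

open Pool.Agent.H.MP_ebc13b_lc.h46
open Pool.Agent.H.MP_ebc13b_lc.h53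
open Pool.Agent.H.MP_ebc13b_lc.h61b

variable {α : Type*} [DecidableEq α] {G : SimpleGraph α} {A : Finset α} {col : α → ZMod 3}

section aux

variable {Z : ZLine G A col} {S : Sys}

theorem own_congr (hok : S.Ok) {v v' : ℤ → ℕ} {r : ℤ} (h : ∀ x, S.ex x → v x = v' x)
    (hO : S.Own v r) : S.Own v' r := by
  unfold Sys.Own at *
  refine le_trans (le_of_eq ?_) hO
  refine Finset.sum_congr rfl fun x _ => ?_
  by_cases hx : S.ex x
  · rw [h x hx]
  · rw [hok.zex x hx, mul_zero, mul_zero]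

theorem w_congr {v v' : ℤ → ℕ} (h : ∀ x, S.ex x → v x = v' x) (p : ℤ) : S.w v p = S.w v' p := by
  unfold Sys.w
  congr 1
  ext n
  constructor
  · rintro ⟨b, hb, e⟩
    exact ⟨b, hb, by rw [← h b hb.1]; exact e⟩
  · rintro ⟨b, hb, e⟩
    exact ⟨b, hb, by rw [h b hb.1]; exact e⟩

theorem row_congr {v v' : ℤ → ℕ} {r : ℤ} (h : ∀ x, S.ex x → v x = v' x)
    (hR : S.Row v r) : S.Row v' r := by
  unfold Sys.Row at *
  rw [Finset.sum_congr rfl fun p _ => by rw [w_congr h p]] at hR
  exact hR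

theorem vv_agree (hC : PC G A col) {D : Finset α} (hD : Stab G A D) (hne : D.Nonempty) {b : ℤ}
    (hb : (Z.bl b).Nonempty) : h61b.vv Z D b = h73.vv Z D b := by
  have h1 := mn_vv (Z := Z) hC hD hne hb
  have h2 := vv_eq (Z := Z) hC hD hne hb
  omega

theorem nic_of_not_ic {D : Finset α} (hD : Stab G A D) (h : ∀ u t t', ¬ IC G A D u t t') :
    NIC G A D := by
  intro T hT u huT huD
  by_contra hcon
  push Not at hcon
  obtain ⟨a, b, h1, h2, h3, rfl⟩ := exists_abc hT.2 huT
  have ha : a ∈ nb G A (D.erase u) := hcon a (by simp) h1.ne'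
  have hb : b ∈ nb G A (D.erase u) := hcon b (by simp) h2.ne'
  obtain ⟨haA, d, hd, had⟩ := mem_nb.1 ha
  obtain ⟨hbA, d', hd', hbd⟩ := mem_nb.1 hb
  refine h u a b ⟨hD, huD, haA, hbA, h1, h2, h3, ?_, ?_⟩
  · exact ⟨d, Finset.mem_of_mem_erase hd, Finset.ne_of_mem_erase hd, had.symm⟩
  · exact ⟨d', Finset.mem_of_mem_erase hd', Finset.ne_of_mem_erase hd', hbd.symm⟩

theorem slotRow_empty {P : Finset α} {O : α → Finset (Finset α)} (hne : ∀ p ∈ P, (O p).Nonempty) :
    SlotRow G A P O (∅ : Finset α) := by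
  intro m hm
  have h1 : cc G A (∅ : Finset α) = 0 := by
    unfold cc nb
    simp
  have h2 : ∀ T, MM G A (∅ : Finset α) T = 0 := by
    intro T
    unfold MM nb
    simp
  rw [h1]
  have h3 : ∑ p ∈ P, m p ≤ ∑ p ∈ P, (0 : ℤ) := by
    refine Finset.sum_le_sum fun p hp => ?_
    obtain ⟨T, hT⟩ := hne p hp
    have := hm p hp T hT
    rw [h2] at this
    exact this
  simpa using h3

end aux

/-- the blocks of a line -/
theorem toZ_bd (L : Line G A col) {b : ℤ} (hb : (L.toZ.bl b).Nonempty) :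
    -((2 * A.card : ℕ) : ℤ) ≤ b ∧ b ≤ ((2 * A.card : ℕ) : ℤ) := by
  obtain ⟨T, hT⟩ := hb
  obtain ⟨h1, h2⟩ := L.mem_toZ_bl.1 hT
  have h3 := L.blk_lt h1
  have h4 : L.m ≤ A.card := by
    have h5 : ((Finset.range L.m).image L.h).card = L.m := by
      rw [Finset.card_image_of_injOn, Finset.card_range]
      intro i hi j hj e
      exact L.inj i (by simpa using hi) j (by simpa using hj) e
    rw [← h5]
    apply Finset.card_le_card
    intro v hv
    obtain ⟨i, hi, rfl⟩ := Finset.mem_image.1 hv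
    exact L.hA i (Finset.mem_range.1 hi)
  omega

theorem toZ_re (L : Line G A col) {i : ℤ} (hi : L.toZ.re i) : ∃ j < L.m, L.toZ.h i = L.h j := by
  obtain ⟨b, hb, T, hT⟩ := hi
  obtain ⟨h1, h2⟩ := L.mem_toZ_bl.1 hT
  have h3 := L.blk_lt h1
  unfold inS at hb
  refine ⟨i.toNat, ?_, rfl⟩
  rcases Nat.even_or_odd' (L.blk T) with ⟨k, hk | hk⟩
  · have := (L.blk_even T h1 k hk).1
    omega
  · have := L.lk_lt k (L.blk_odd T h1 k hk).1
    omega

/-- **Existence of a feasible slot system**, with the rows of maximal stable sets as hypotheses. -/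
theorem t1d_aux (hC : PC G A col) (L : Line G A col) {t : ℕ} {e : ℝ} (h : ALP G A t e)
    (he : 512 * ((A.card : ℝ) + 1) * e ≤ 1)
    (hMR : ∀ S : Sys, S.Ok → S.ex = (fun b => (L.toZ.bl b).Nonempty) → S.P.card = t →
      (∀ E, Stab G A E → E.Nonempty → S.Own (h61b.vv L.toZ E) (cc G A E - S.P.card)) →
      ∀ F, MaxS G A F → F.Nonempty → S.Row (h61b.vv L.toZ F) (cc G A F - S.P.card) ∧
        S.Hs (h61b.vv L.toZ F) ≤ cc G A F - S.P.card + 2) :
    ∃ (P : Finset α) (O : α → Finset (Finset α)), P.card = t ∧ (∀ p ∈ P, ∃ i < L.m, p = L.h i) ∧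
      Slots G A P O ∧ Feas G A P O := by
  classical
  have he0 : 0 ≤ e := by
    obtain ⟨z, y, s, _, h2, _, h4⟩ := h
    have h5 : 0 ≤ ∑ v ∈ A, s v := Finset.sum_nonneg fun v _ => h2 v
    linarith [abs_nonneg (∑ T ∈ A.powerset, z T - (t : ℝ))]
  have hA0 : (0 : ℝ) ≤ (A.card : ℝ) := Nat.cast_nonneg _
  have he1 : e < 1 := by nlinarith
  obtain ⟨z, hz, hzt, hld, hrow⟩ := alp_prep h he1
  set Z := L.toZ with hZ
  set N : ℕ := 2 * A.card with hN
  set δ : ℝ := 1 / (16 * ((A.card : ℝ) + 1)) with hδ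
  have hδ0 : 0 < δ := by positivity
  have hδmul : δ * (16 * ((A.card : ℝ) + 1)) = 1 := by
    rw [hδ]
    field_simp
  have hδε : 8 * (4 * e) ≤ δ := by
    rw [hδ, le_div_iff₀ (by positivity)]
    nlinarith
  have hδN : 2 * δ * (2 * (N : ℝ) + 4) < 1 := by
    have h1 : (N : ℝ) = 2 * (A.card : ℝ) := by rw [hN]; push_cast; ring
    rw [h1]
    nlinarith
  have bd : ∀ b, (Z.bl b).Nonempty → -(N : ℤ) ≤ b ∧ b ≤ N := fun b hb => toZ_bd L hb
  have hst : ∀ i, zb Z z (2 * i - 1) + zb Z z (2 * i) + zb Z z (2 * i + 1) ≤ 1 + 4 * e := by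
    intro i
    by_cases hi : Z.re i
    · rw [← ld_star hz.2 hi]
      have := hld _ (Z.hA hi)
      linarith
    · have h1 : ∀ b, inS i b → ¬ (Z.bl b).Nonempty := fun b hb hne => hi ⟨b, hb, hne⟩
      rw [zb_zero z (h1 _ (Or.inl rfl)), zb_zero z (h1 _ (Or.inr (Or.inl rfl))),
        zb_zero z (h1 _ (Or.inr (Or.inr rfl)))]
      linarith
  have htot : ∑ x ∈ Finset.Icc (-(N : ℤ)) N, zb Z z x = (t : ℝ) := by
    rw [← sum_blocks' bd hz.2]
    exact hzt
  have hcard : ∀ S : Sys, On Z (zb Z z) N δ (4 * e) S → S.P.card = t := by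
    intro S hon
    have h1 := hon.ok.tot
    rw [hon.K, hon.z, htot] at h1
    exact_mod_cast h1.symm
  have hown : ∀ S : Sys, On Z (zb Z z) N δ (4 * e) S → ∀ E, Stab G A E → E.Nonempty →
      S.Own (h61b.vv Z E) (cc G A E - S.P.card) := by
    intro S hon E hE hEne
    refine own_congr hon.ok ?_ (own_of_lp hC hon hz.1 hz.2 hE hEne (hrow E hE))
    intro x hx
    rw [hon.ex] at hx
    exact (vv_agree hC hE hEne hx).symm
  have hHs : ∀ S : Sys, On Z (zb Z z) N δ (4 * e) S → ∀ E, Stab G A E → E.Nonempty →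
      S.Hs (h61b.vv Z E) = ∑ p ∈ S.P, mn Z E (S.t p) - S.P.card := by
    intro S hon E hE hEne
    rw [← Hs_eq hC hon.ok hon.ex hE hEne]
    unfold Sys.Hs
    refine Finset.sum_congr rfl fun p hp => ?_
    have h1 := (hon.ok.tO p hp).1
    rw [hon.ex] at h1
    rw [vv_agree hC hE hEne h1]
  have hMS : ∀ F, MaxS G A F → Stab G A F := fun F hF => ⟨hF.sub, hF.stab⟩
  have hblk : ∀ S : Sys, On Z (zb Z z) N δ (4 * e) S → Blk S Z := by
    intro S hon b
    rw [hon.ex]
  -- maximal stable sets are nonempty unless there is nothing to do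
  have hLow : ∀ S : Sys, On Z (zb Z z) N δ (4 * e) S → ∀ X, Stab G A X →
      ∑ p ∈ S.P, mn Z X (S.t p) ≤ cc G A X + 2 := by
    intro S hon X hX
    refine low_all hC hon.ok hon.ex ?_ ?_ hX
    · intro F hF
      rcases F.eq_empty_or_nonempty with rfl | hFne
      · have hA : A = ∅ := by
          rw [Finset.eq_empty_iff_forall_notMem]
          intro v hv
          obtain ⟨f, hf, _⟩ := hF.max v hv (by simp)
          simp at hf
        have hP : S.P = ∅ := by
          rw [Finset.eq_empty_iff_forall_notMem]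
          intro p hp
          exact Finset.eq_empty_iff_forall_notMem.1 hA _ (Z.hA (re_P hon.ok hon.ex hp))
        rw [hP, Finset.sum_empty]
        have : cc G A (∅ : Finset α) = 0 := by
          unfold cc nb
          simp
        omega
      · have h1 := (hMR S hon.ok hon.ex (hcard S hon) (hown S hon) F hF hFne).2
        rw [hHs S hon F (hMS F hF) hFne] at h1
        omega
    · intro D hD hne _ hic
      have h1 := nic_low hC hD hne (nic_of_not_ic hD hic) hon.ok (hblk S hon) (hown S hon)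
      rw [hHs S hon D hD hne] at h1
      omega
  obtain ⟨S, hon, hSc, hDL, hDR⟩ := exists_sys Z hC (zb Z z) t N δ (4 * e)
    (zb_nonneg hz.1) (fun b hb => zb_zero z hb) bd hst htot (by linarith) hδε hδ0 hδN hLow
  have hSl := slots_sl (Z := Z) hon.ok hon.ex
  have hne := ne_sl (Z := Z) hon.ok hon.ex
  have hrowOf : ∀ D, Stab G A D → D.Nonempty → S.Row (h61b.vv Z D) (cc G A D - S.P.card) →
      SlotRow G A (Psl Z S) (Osl Z S) D := by
    intro D hD hDne hR
    refine slotRow_of_row hC hon.ok hon.ex hD hDne (row_congr ?_ hR)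
    intro x hx
    rw [hon.ex] at hx
    exact vv_agree hC hD hDne hx
  have hMaxRow : ∀ F, MaxS G A F → SlotRow G A (Psl Z S) (Osl Z S) F := by
    intro F hF
    rcases F.eq_empty_or_nonempty with rfl | hFne
    · exact slotRow_empty hne
    · exact hrowOf F (hMS F hF) hFne
        (hMR S hon.ok hon.ex (hcard S hon) (hown S hon) F hF hFne).1
  have hSysOK := sysOK_of hon hz hrow
  have hall : ∀ D, Stab G A D → SlotRow G A (Psl Z S) (Osl Z S) D := by
    intro D hD
    refine wlog_full hSl ?_ hD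
    intro D hD hf
    rcases D.eq_empty_or_nonempty with rfl | hDne
    · exact slotRow_empty hne
    · by_cases hic : ∃ u t t', IC G A D u t t'
      · obtain ⟨u, t, t', hic⟩ := hic
        exact hic.final hC hf hSysOK hMaxRow
      · push Not at hic
        exact hrowOf D hD hDne (nic_row hC hD hDne (nic_of_not_ic hD hic) hon.ok (hblk S hon)
          (hown S hon) hDL hDR)
  refine ⟨Psl Z S, Osl Z S, ?_, ?_, hSl, ?_⟩
  · rw [card_Psl hon.ok hon.ex]
    exact hSc
  · intro p hp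
    obtain ⟨i, hi, rfl⟩ := hub_sl hon.ok hon.ex p hp
    exact toZ_re L hi
  · by_contra hinf
    obtain ⟨D, hD, m, hm, hlt⟩ := ft2 hC.pr hSl hne hinf
    have := hall D hD m hm
    omega

/-- **Existence of a feasible slot system.** -/
theorem t1d (hC : PC G A col) (L : Line G A col) {t : ℕ} {e : ℝ} (h : ALP G A t e)
    (he : 512 * ((A.card : ℝ) + 1) * e ≤ 1) (hpar : Even (A.card + t)) :
    ∃ (P : Finset α) (O : α → Finset (Finset α)), P.card = t ∧ (∀ p ∈ P, ∃ i < L.m, p = L.h i) ∧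
      Slots G A P O ∧ Feas G A P O := by
  refine t1d_aux hC L h he ?_
  intro S hok hex hc hown F hF hne
  have hblk : Blk S L.toZ := by
    intro b
    rw [hex]
  have hpar' : Even (A.card + S.P.card) := by
    rw [hc]
    exact hpar
  have hO := hown F ⟨hF.sub, hF.stab⟩ hne
  exact ⟨max_row hC hF (L.zshape hC hF) hok hblk hpar' hO,
    max_low hC hF (L.zshape hC hF) hok hblk hpar' hO⟩

/-- The interface of the rounding. -/
theorem t1_all (hC : PC G A col) : T1 G A col := by
  intro L t h hpar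
  exact t1d hC L (alp_of_lpf h) (by simp) hpar

/-- **Rounding** for graphs without `L(K_33)` and parallels. -/
theorem round_alp [Nonempty α] (hC : PC G A col) (hN : NoCyc G A col) (hP : NoPar G A col)
    {t : ℕ} {e : ℝ} (h : ALP G A t e) (he : 512 * ((A.card : ℝ) + 1) * e ≤ 1)
    (hpar : Even (A.card + t)) : ISol G A t := by
  obtain ⟨L⟩ := exists_line hC hN hP
  obtain ⟨P, O, hPc, hPh, hS, hF⟩ := t1d hC L h he hpar
  rw [← hPc]
  refine round_slots (fun B hB => t1_all (pc_mono hC hB)) hC hN hP L hS hF hPh ?_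
  rw [hPc]
  exact hpar

end Pool.Agent.H.MP_ebc13b_lc.h73
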