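import Pool.Agent.H.MP_ebc13b_lc.h46.Defs

/-!
The conflict lemma: two disjoint stable sets with a common neighbour outside a family of
disjoint triangles can be combined into one stable set with smaller slack.
-/

namespace Pool.Agent.H.MP_ebc13b_lc.h73

open Pool.Agent.H.MP_ebc13b_lc.h46

variable {α : Type*} [DecidableEq α] {G : SimpleGraph α} {A : Finset α}

/-- The slack of the set `D` with respect to the family `S` of triangles. -/
noncomputable def slk (G : SimpleGraph α) (A D : Finset α) (S : Finset (Finset α)) : ℤ :=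
  cc G A D - ∑ T ∈ S, MM G A D T

theorem card_inter_eq (X U : Finset α) :
    ((U ∩ X).card : ℤ) = ∑ v ∈ U, if v ∈ X then (1 : ℤ) else 0 := by
  rw [Finset.sum_ite_mem, Finset.sum_const, nsmul_eq_mul, mul_one]

theorem MM_eq_sum (D T : Finset α) : MM G A D T = ∑ v ∈ T, chi G A D v := by
  unfold MM chi
  rw [card_inter_eq, card_inter_eq, Finset.sum_sub_distrib]

theorem cc_eq_sum (D : Finset α) (hD : D ⊆ A) : cc G A D = ∑ v ∈ A, chi G A D v := by
  unfold cc chi
  rw [Finset.sum_sub_distrib, ← card_inter_eq, ← card_inter_eq,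
    Finset.inter_eq_right.mpr nb_sub, Finset.inter_eq_right.mpr hD]

/-- The slack is a sum of signs over the uncovered vertices. -/
theorem slk_eq (D : Finset α) (hD : D ⊆ A) (S : Finset (Finset α)) (hS : ∀ T ∈ S, T ⊆ A)
    (hd : ∀ T ∈ S, ∀ T' ∈ S, T ≠ T' → Disjoint T T') :
    slk G A D S = ∑ v ∈ A \ S.biUnion id, chi G A D v := by
  unfold slk
  have h1 : ∑ T ∈ S, MM G A D T = ∑ v ∈ S.biUnion id, chi G A D v := by
    rw [Finset.sum_biUnion]
    · exact Finset.sum_congr rfl fun T _ => MM_eq_sum D T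
    · intro T hT T' hT' hne
      exact hd T hT T' hT' hne
  have h2 : S.biUnion id ⊆ A := by
    intro v hv
    rw [Finset.mem_biUnion] at hv
    obtain ⟨T, hT, hv⟩ := hv
    exact hS T hT hv
  rw [h1, cc_eq_sum D hD, ← Finset.sum_sdiff h2]
  ring

theorem nb_union (D E : Finset α) : nb G A (D ∪ E) = nb G A D ∪ nb G A E := by
  ext v
  simp only [mem_nb, Finset.mem_union]
  constructor
  · rintro ⟨h1, d, hd | hd, h2⟩
    · exact Or.inl ⟨h1, d, hd, h2⟩
    · exact Or.inr ⟨h1, d, hd, h2⟩
  · rintro (⟨h1, d, hd, h2⟩ | ⟨h1, d, hd, h2⟩)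
    · exact ⟨h1, d, Or.inl hd, h2⟩
    · exact ⟨h1, d, Or.inr hd, h2⟩

/-- **Conflict lemma.** -/
theorem conf {D E : Finset α} (hD : Stab G A D) (hE : Stab G A E) (hDE : Disjoint D E) :
    ∃ X, Stab G A X ∧ ∀ S : Finset (Finset α), (∀ T ∈ S, T ⊆ A) →
      (∀ T ∈ S, ∀ T' ∈ S, T ≠ T' → Disjoint T T') →
      ∀ v, v ∈ nb G A D → v ∈ nb G A E → (∀ T ∈ S, v ∉ T) →
      slk G A X S ≤ slk G A D S + slk G A E S - 1 := by
  classical
  set X : Finset α := (D ∪ E) \ nb G A (D ∪ E) with hX
  have hsub : D ∪ E ⊆ A := Finset.union_subset hD.1 hE.1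
  have hXs : Stab G A X := by
    refine ⟨Finset.sdiff_subset.trans hsub, ?_⟩
    intro u hu w hw huw
    rw [hX, Finset.mem_sdiff] at hu hw
    exact hu.2 (mem_nb.2 ⟨hsub hu.1, w, hw.1, huw⟩)
  refine ⟨X, hXs, ?_⟩
  intro S hS hd v hvD hvE hvS
  rw [slk_eq X hXs.1 S hS hd, slk_eq D hD.1 S hS hd, slk_eq E hE.1 S hS hd,
    ← Finset.sum_add_distrib]
  have hle : ∀ w ∈ A \ S.biUnion id, chi G A X w ≤ chi G A D w + chi G A E w := by
    intro w hw
    have hwA : w ∈ A := (Finset.mem_sdiff.1 hw).1
    by_cases hwD : w ∈ D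
    · have hwE : w ∉ E := Finset.disjoint_left.1 hDE hwD
      have hwnD : w ∉ nb G A D := fun h => Finset.disjoint_left.1 hD.disj h hwD
      by_cases hwnE : w ∈ nb G A E
      · have hwX : w ∉ X := by
          rw [hX, Finset.mem_sdiff, nb_union]
          exact fun h => h.2 (Finset.mem_union_right _ hwnE)
        have hwnX : w ∉ nb G A X := by
          intro h
          obtain ⟨_, x, hx, hwx⟩ := mem_nb.1 h
          rw [hX, Finset.mem_sdiff] at hx
          exact hx.2 (mem_nb.2 ⟨hsub hx.1, w, Finset.mem_union_left _ hwD, hwx.symm⟩)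
        unfold chi
        simp [hwD, hwE, hwnD, hwnE, hwX, hwnX]
      · have hwX : w ∈ X := by
          rw [hX, Finset.mem_sdiff, nb_union]
          refine ⟨Finset.mem_union_left _ hwD, fun h => ?_⟩
          rcases Finset.mem_union.1 h with h | h
          · exact hwnD h
          · exact hwnE h
        have hwnX : w ∉ nb G A X := fun h => Finset.disjoint_left.1 hXs.disj h hwX
        unfold chi
        simp [hwD, hwE, hwnD, hwnE, hwX, hwnX]
    · by_cases hwE : w ∈ E
      · have hwnE : w ∉ nb G A E := fun h => Finset.disjoint_left.1 hE.disj h hwE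
        by_cases hwnD : w ∈ nb G A D
        · have hwX : w ∉ X := by
            rw [hX, Finset.mem_sdiff, nb_union]
            exact fun h => h.2 (Finset.mem_union_left _ hwnD)
          have hwnX : w ∉ nb G A X := by
            intro h
            obtain ⟨_, x, hx, hwx⟩ := mem_nb.1 h
            rw [hX, Finset.mem_sdiff] at hx
            exact hx.2 (mem_nb.2 ⟨hsub hx.1, w, Finset.mem_union_right _ hwE, hwx.symm⟩)
          unfold chi
          simp [hwD, hwE, hwnD, hwnE, hwX, hwnX]
        · have hwX : w ∈ X := by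
            rw [hX, Finset.mem_sdiff, nb_union]
            refine ⟨Finset.mem_union_right _ hwE, fun h => ?_⟩
            rcases Finset.mem_union.1 h with h | h
            · exact hwnD h
            · exact hwnE h
          have hwnX : w ∉ nb G A X := fun h => Finset.disjoint_left.1 hXs.disj h hwX
          unfold chi
          simp [hwD, hwE, hwnD, hwnE, hwX, hwnX]
      · have hwX : w ∉ X := by
          rw [hX, Finset.mem_sdiff, Finset.mem_union]
          exact fun h => h.1.elim hwD hwE
        have hnX : w ∈ nb G A X → w ∈ nb G A D ∨ w ∈ nb G A E := by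
          intro h
          have := nb_mono (G := G) (A := A) (Finset.sdiff_subset : X ⊆ D ∪ E) h
          rw [nb_union] at this
          exact Finset.mem_union.1 this
        unfold chi
        by_cases h1 : w ∈ nb G A X <;> by_cases h2 : w ∈ nb G A D <;>
          by_cases h3 : w ∈ nb G A E <;> simp [h1, h2, h3, hwX, hwD, hwE]
        exact absurd (hnX h1) (by tauto)
  have hvA : v ∈ A \ S.biUnion id := by
    rw [Finset.mem_sdiff, Finset.mem_biUnion]
    refine ⟨nb_sub hvD, ?_⟩
    rintro ⟨T, hT, hvT⟩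
    exact hvS T hT hvT
  have hlt : chi G A X v + 1 ≤ chi G A D v + chi G A E v := by
    have h1 : v ∉ D := fun h => Finset.disjoint_left.1 hD.disj hvD h
    have h2 : v ∉ E := fun h => Finset.disjoint_left.1 hE.disj hvE h
    have h3 : chi G A X v ≤ 1 := by
      unfold chi
      split_ifs <;> simp
    have h4 : chi G A D v = 1 := by unfold chi; simp [h1, hvD]
    have h5 : chi G A E v = 1 := by unfold chi; simp [h2, hvE]
    omega
  rw [← Finset.add_sum_erase _ _ hvA, ← Finset.add_sum_erase _ _ hvA]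
  have h6 : ∑ w ∈ (A \ S.biUnion id).erase v, chi G A X w ≤
      ∑ w ∈ (A \ S.biUnion id).erase v, (chi G A D w + chi G A E w) :=
    Finset.sum_le_sum fun w hw => hle w (Finset.mem_of_mem_erase hw)
  omega

end Pool.Agent.H.MP_ebc13b_lc.h73
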