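import Pool.Agent.H.MP_ebc13b_lc.h53.ZPos
import Pool.Agent.H.MP_ebc13b_lc.h73.Conf
import Pool.Agent.H.MP_ebc13b_lc.h73.Sel

/-!
Demands: one-class stable sets violated by the hit blocks; the two exclusions.
-/

namespace Pool.Agent.H.MP_ebc13b_lc.h73

open Pool.Agent.H.MP_ebc13b_lc.h46
open Pool.Agent.H.MP_ebc13b_lc.h53

variable {α : Type*} [DecidableEq α] {G : SimpleGraph α} {A : Finset α} {col : α → ZMod 3}

section

variable (Z : ZLine G A col)

open Classical in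
/-- the minimum of `MM G A D T` over the triangles of the block `b` -/
noncomputable def mn (D : Finset α) (b : ℤ) : ℤ :=
  if h : (Z.bl b).Nonempty then (Z.bl b).inf' h (fun T => MM G A D T) else 0

theorem mn_le (D : Finset α) {b : ℤ} {T : Finset α} (hT : T ∈ Z.bl b) :
    mn Z D b ≤ MM G A D T := by
  unfold mn
  rw [dif_pos ⟨T, hT⟩]
  exact Finset.inf'_le _ hT

theorem exists_mn (D : Finset α) {b : ℤ} (h : (Z.bl b).Nonempty) :
    ∃ T ∈ Z.bl b, MM G A D T = mn Z D b := by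
  unfold mn
  rw [dif_pos h]
  obtain ⟨T, hT, e⟩ := Finset.exists_mem_eq_inf' h (fun T => MM G A D T)
  exact ⟨T, hT, e.symm⟩

/-- slack of the row of `D` with respect to the set `K` of hit blocks -/
noncomputable def slb (K : Finset ℤ) (D : Finset α) : ℤ := cc G A D - ∑ b ∈ K, mn Z D b

/-- `K` is a set of nonempty blocks, at most one in every star -/
structure Hits (K : Finset ℤ) : Prop where
  ne : ∀ b ∈ K, (Z.bl b).Nonempty
  star : ∀ i b b', inS i b → inS i b' → b ∈ K → b' ∈ K → b = b'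

/-- the conflict lemma for blocks -/
theorem conf_block {K : Finset ℤ} (hK : Hits Z K) {D E : Finset α} (hD : Stab G A D)
    (hE : Stab G A E) (hDE : Disjoint D E) {v : α} (h1 : v ∈ nb G A D) (h2 : v ∈ nb G A E)
    (h3 : ∀ b ∈ K, ∀ T ∈ Z.bl b, v ∉ T) :
    ∃ X, Stab G A X ∧ slb Z K X ≤ slb Z K D + slb Z K E - 1 := by
  classical
  obtain ⟨X, hX, h⟩ := conf (G := G) (A := A) hD hE hDE
  refine ⟨X, hX, ?_⟩
  have hch : ∀ b, ∃ T, b ∈ K → T ∈ Z.bl b ∧ MM G A X T = mn Z X b := by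
    intro b
    by_cases hb : b ∈ K
    · obtain ⟨T, h4, h5⟩ := exists_mn Z X (hK.ne b hb)
      exact ⟨T, fun _ => ⟨h4, h5⟩⟩
    · exact ⟨∅, fun h => absurd h hb⟩
  choose f hf using hch
  have hinj : Set.InjOn f (K : Set ℤ) := by
    intro b hb b' hb' e
    have hb1 : b ∈ K := by simpa using hb
    have hb2 : b' ∈ K := by simpa using hb'
    have h4 := (hf b hb1).1
    have h5 := (hf b' hb2).1
    rw [← e] at h5
    exact Z.uniq _ _ _ h4 h5
  have hdisj : ∀ b ∈ K, ∀ b' ∈ K, b ≠ b' → Disjoint (f b) (f b') := by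
    intro b hb b' hb' hne
    have h4 := (hf b hb).1
    have h5 := (hf b' hb').1
    apply Z.disj_of h4 h5
    · intro e
      exact hne (hinj (by simpa using hb) (by simpa using hb') e)
    · intro i hi hi'
      exact hne (hK.star i b b' hi hi' hb hb')
  have hsum : ∀ Y : Finset α, ∑ T ∈ K.image f, MM G A Y T = ∑ b ∈ K, MM G A Y (f b) := by
    intro Y
    rw [Finset.sum_image]
    exact hinj
  have h6 := h (K.image f) ?_ ?_ v h1 h2 ?_
  · unfold slk at h6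
    rw [hsum, hsum, hsum] at h6
    have h7 : ∑ b ∈ K, MM G A X (f b) = ∑ b ∈ K, mn Z X b :=
      Finset.sum_congr rfl fun b hb => (hf b hb).2
    have h8 : ∑ b ∈ K, mn Z D b ≤ ∑ b ∈ K, MM G A D (f b) :=
      Finset.sum_le_sum fun b hb => mn_le Z D (hf b hb).1
    have h9 : ∑ b ∈ K, mn Z E b ≤ ∑ b ∈ K, MM G A E (f b) :=
      Finset.sum_le_sum fun b hb => mn_le Z E (hf b hb).1
    unfold slb
    omega
  · intro T hT
    obtain ⟨b, hb, rfl⟩ := Finset.mem_image.1 hT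
    exact (Z.isT b _ (hf b hb).1).1
  · intro T hT T' hT' hne
    obtain ⟨b, hb, rfl⟩ := Finset.mem_image.1 hT
    obtain ⟨b', hb', rfl⟩ := Finset.mem_image.1 hT'
    exact hdisj b hb b' hb' (fun e => hne (by rw [e]))
  · intro T hT
    obtain ⟨b, hb, rfl⟩ := Finset.mem_image.1 hT
    exact h3 b hb _ (hf b hb).1

/-- no hit in the star of `h_i` -/
def Fr (K : Finset ℤ) (i : ℤ) : Prop := ∀ b, inS i b → b ∉ K

/-- right demand at the free hub `h_i` -/
def RDm (K : Finset ℤ) (i : ℤ) : Prop :=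
  Fr K i ∧ Z.lk i ∧ (2 * i + 2 ∈ K ∨ 2 * i + 3 ∈ K) ∧
    ∃ D, Stab G A D ∧ (∀ v ∈ D, col v = col (Z.h i) + 2) ∧ Z.mid i ∈ D ∧ slb Z K D < 0

/-- left demand at the free hub `h_i` -/
def LDm (K : Finset ℤ) (i : ℤ) : Prop :=
  Fr K i ∧ Z.lk (i - 1) ∧ (2 * i - 2 ∈ K ∨ 2 * i - 3 ∈ K) ∧
    ∃ E, Stab G A E ∧ (∀ v ∈ E, col v = col (Z.h i) + 1) ∧ Z.mid (i - 1) ∈ E ∧ slb Z K E < 0

/-- every row is violated by at most two -/
def Low (K : Finset ℤ) : Prop := ∀ X, Stab G A X → -2 ≤ slb Z K X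

variable {Z}

theorem not_mem_of_free {K : Finset ℤ} {i : ℤ} (hre : Z.re i) (hf : Fr K i) :
    ∀ b ∈ K, ∀ T ∈ Z.bl b, Z.h i ∉ T := by
  intro b hb T hT h
  exact hf b ((Z.hub_iff hre hT).1 h) hb

theorem h_adj_mid {i : ℤ} (h : Z.lk i) : G.Adj (Z.h i) (Z.mid i) :=
  (Z.Q_T h).adj (Z.h_mem_Q i) (Z.mid_mem_Q i) (Z.mid_ne_h h (Z.lk_re h)).symm

theorem h_adj_mid' {i : ℤ} (h : Z.lk (i - 1)) : G.Adj (Z.h i) (Z.mid (i - 1)) := by
  have e : i - 1 + 1 = i := by ring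
  have h1 := Z.h1_mem_Q (i - 1)
  have h2 := Z.lk_re1 h
  rw [e] at h1 h2
  exact (Z.Q_T h).adj h1 (Z.mid_mem_Q _) (Z.mid_ne_h h h2).symm

/-- the first exclusion -/
theorem excl1 {K : Finset ℤ} (hK : Hits Z K) (hL : Low Z K) (i : ℤ) (h1 : RDm Z K i)
    (h2 : LDm Z K i) : False := by
  obtain ⟨hf, hlk, _, D, hD, hDc, hDm, hDs⟩ := h1
  obtain ⟨_, hlk', _, E, hE, hEc, hEm, hEs⟩ := h2
  have hre := Z.lk_re hlk
  have hA := Z.hA hre
  have hDE : Disjoint D E := by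
    rw [Finset.disjoint_left]
    intro v hv hv'
    exact z3_12 _ ((hEc v hv').symm.trans (hDc v hv))
  obtain ⟨X, hX, h⟩ := conf_block Z hK hD hE hDE (v := Z.h i)
    (mem_nb.2 ⟨hA, _, hDm, h_adj_mid hlk⟩) (mem_nb.2 ⟨hA, _, hEm, h_adj_mid' hlk'⟩)
    (not_mem_of_free hre hf)
  have := hL X hX
  omega

/-- the middle vertex of `Q_{j+1}` sees `h_{j-1}` -/
theorem mid_sees (hC : PC G A col) {j : ℤ} (h0 : Z.lk (j - 1)) (h1 : Z.lk j) (h2 : Z.lk (j + 1)) :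
    G.Adj (Z.mid (j + 1)) (Z.h (j - 1)) := by
  have h3 := Z.Q_mem h0
  obtain ⟨h4, u, hu, hadj, hcol⟩ := Z.mid_gt hC h2 h3 (by omega)
  have e1 := Z.col1 _ h0
  have e2 := Z.col1 _ h1
  have e3 := Z.colm _ h2
  have e5 : j - 1 + 1 = j := by ring
  rw [e5] at e1
  have hc : col u = col (Z.h (j - 1)) := by
    rw [hcol, e3, e2, e1]
    generalize col (Z.h (j - 1)) = a
    revert a
    decide
  have hT := Z.Q_T h0
  have := hC.col_inj hT hu (Z.h_mem_Q (j - 1)) hc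
  rw [← this]
  exact hadj

/-- the second exclusion -/
theorem excl2 (hC : PC G A col) {K : Finset ℤ} (hK : Hits Z K) (hL : Low Z K) (j : ℤ)
    (hj : 2 * j + 1 ∈ K) (h1 : RDm Z K (j - 1)) (h2 : LDm Z K (j + 2)) : False := by
  obtain ⟨hf, hlk, _, D, hD, hDc, hDm, hDs⟩ := h1
  obtain ⟨_, hlk', _, E, hE, hEc, hEm, hEs⟩ := h2
  have e5 : j + 2 - 1 = j + 1 := by ring
  rw [e5] at hlk' hEm
  have hlkj : Z.lk j := hK.ne _ hj
  have hre := Z.lk_re hlk
  have hA := Z.hA hre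
  have e1 := Z.col1 _ hlk
  have e2 := Z.col1 _ hlkj
  have e3 := Z.col1 _ hlk'
  have e6 : j - 1 + 1 = j := by ring
  have e7 : j + 1 + 1 = j + 2 := by ring
  rw [e6] at e1
  rw [e7] at e3
  have hDE : Disjoint D E := by
    rw [Finset.disjoint_left]
    intro v hv hv'
    have a1 := hDc v hv
    have a2 := hEc v hv'
    rw [a1, e3, e2, e1] at a2
    revert a2
    generalize col (Z.h (j - 1)) = a
    revert a
    decide
  obtain ⟨X, hX, h⟩ := conf_block Z hK hD hE hDE (v := Z.h (j - 1))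
    (mem_nb.2 ⟨hA, _, hDm, h_adj_mid hlk⟩)
    (mem_nb.2 ⟨hA, _, hEm, (mid_sees hC hlk hlkj hlk').symm⟩)
    (not_mem_of_free hre hf)
  have := hL X hX
  omega

/-- the input of the choice of the slots -/
def selIn (hC : PC G A col) {K : Finset ℤ} (hK : Hits Z K) (hL : Low Z K) : h73b.SelIn where
  ex := fun b => (Z.bl b).Nonempty
  K := fun b => b ∈ K
  RD := RDm Z K
  LD := LDm Z K
  Kex := hK.ne
  star := by
    intro i b b' h1 h2 h3 h4 h5 h6
    exact hK.star i b b' (inS_iff.2 ⟨h1, h2⟩) (inS_iff.2 ⟨h3, h4⟩) h5 h6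
  ne := fun i h => Z.ne i h
  rd := by
    rintro i ⟨hf, hlk, hk, _⟩
    exact ⟨fun b h1 h2 => hf b (inS_iff.2 ⟨h1, h2⟩), hlk, hk⟩
  ld := by
    rintro i ⟨hf, hlk, hk, _⟩
    refine ⟨fun b h1 h2 => hf b (inS_iff.2 ⟨h1, h2⟩), ?_, hk⟩
    have e : 2 * (i - 1) + 1 = 2 * i - 1 := by ring
    unfold ZLine.lk at hlk
    rw [e] at hlk
    exact hlk
  c1 := fun i h1 h2 => excl1 hK hL i h1 h2
  c2 := fun i h h1 h2 => excl2 hC hK hL i h h1 h2

end

end Pool.Agent.H.MP_ebc13b_lc.h73
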