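import Pool.Agent.H.MP_ebc13b_lc.h73.Rw
import Pool.Agent.H.MP_ebc13b_lc.h46.ICa
import Pool.Agent.H.MP_ebc13b_lc.h46.ICfin

/-!
Lower bounds for the slack: reduction to full sets, interior cores.
-/

namespace Pool.Agent.H.MP_ebc13b_lc.h73

open Pool.Agent.H.MP_ebc13b_lc.h46
open Pool.Agent.H.MP_ebc13b_lc.h53
open Pool.Agent.H.MP_ebc13b_lc.h61b

variable {α : Type*} [DecidableEq α] {G : SimpleGraph α} {A : Finset α} {col : α → ZMod 3}

/-- the row of `D` holds at slot level up to `κ` -/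
def SlotRowK (κ : ℤ) (G : SimpleGraph α) (A P : Finset α) (O : α → Finset (Finset α))
    (D : Finset α) : Prop :=
  ∀ m : α → ℤ, (∀ p ∈ P, ∀ T ∈ O p, m p ≤ MM G A D T) → ∑ p ∈ P, m p ≤ cc G A D + κ

section plus

variable {P D : Finset α} {O : α → Finset (Finset α)} {κ : ℤ}

theorem out_nadj {w : α} (hw : Out G A D w) {d : α} (hd : d ∈ D) : ¬ G.Adj w d := fun h =>
  hw.2.2 (mem_nb.2 ⟨hw.1, d, hd, h⟩)

theorem ins_stab (hD : Stab G A D) {w : α} (hw : Out G A D w) :
    Stab G A (insert w D) := by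
  refine ⟨?_, ?_⟩
  · intro v hv
    rcases Finset.mem_insert.1 hv with rfl | hv
    · exact hw.1
    · exact hD.1 hv
  · intro u hu v hv
    rcases Finset.mem_insert.1 hu with hu1 | hu1
    · rcases Finset.mem_insert.1 hv with hv1 | hv1
      · rw [hu1, hv1]
        exact G.irrefl
      · rw [hu1]
        exact out_nadj hw hv1
    · rcases Finset.mem_insert.1 hv with hv1 | hv1
      · rw [hv1]
        exact fun h => out_nadj hw hu1 h.symm
      · exact hD.2 u hu1 v hv1

theorem ins_nb {w : α} (hw : Out G A D w)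
    (hiso : ∀ v, Out G A D v → ¬ G.Adj w v) : nb G A (insert w D) = nb G A D := by
  ext v
  rw [mem_nb]
  constructor
  · rintro ⟨hvA, d, hd, hvd⟩
    rcases Finset.mem_insert.1 hd with rfl | hd
    · by_contra hv
      have hvD : v ∉ D := fun hvD => out_nadj hw hvD hvd.symm
      exact hiso v ⟨hvA, hvD, hv⟩ hvd.symm
    · exact mem_nb.2 ⟨hvA, d, hd, hvd⟩
  · intro hv
    obtain ⟨hvA, d, hd, hvd⟩ := mem_nb.1 hv
    exact ⟨hvA, d, Finset.mem_insert_of_mem hd, hvd⟩

theorem ins_cc {w : α} (hw : Out G A D w)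
    (hiso : ∀ v, Out G A D v → ¬ G.Adj w v) : cc G A (insert w D) = cc G A D - 1 := by
  unfold cc
  rw [ins_nb hw hiso, Finset.card_insert_of_notMem hw.2.1]
  push_cast
  ring

theorem ins_MM {w : α} (hw : Out G A D w)
    (hiso : ∀ v, Out G A D v → ¬ G.Adj w v) (T : Finset α) :
    MM G A (insert w D) T = MM G A D T - (if w ∈ T then 1 else 0) := by
  unfold MM
  rw [ins_nb hw hiso]
  split_ifs with h
  · rw [Finset.inter_insert_of_mem h, Finset.card_insert_of_notMem]
    · push_cast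
      ring
    · intro h'
      exact hw.2.1 (Finset.mem_inter.1 h').2
  · rw [Finset.inter_insert_of_notMem h]
    ring

/-- Adding a vertex whose neighbours are in `N(D)`. -/
theorem row_plusK (hS : Slots G A P O) {w : α} (hw : Out G A D w)
    (hiso : ∀ v, Out G A D v → ¬ G.Adj w v) (hrow : SlotRowK κ G A P O (insert w D)) :
    SlotRowK κ G A P O D := by
  classical
  intro m hm
  have key := hrow (fun p => m p - (if ∃ T ∈ O p, w ∈ T then 1 else 0)) ?_
  · rw [ins_cc hw hiso, Finset.sum_sub_distrib] at key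
    have hle : ∑ p ∈ P, (if ∃ T ∈ O p, w ∈ T then (1 : ℤ) else 0) ≤ 1 := by
      rw [Finset.sum_boole]
      have : (P.filter (fun p => ∃ T ∈ O p, w ∈ T)).card ≤ 1 := by
        rw [Finset.card_le_one]
        intro p hp q hq
        rw [Finset.mem_filter] at hp hq
        obtain ⟨hp, T, hT, hwT⟩ := hp
        obtain ⟨hq, T', hT', hwT'⟩ := hq
        by_contra hne
        exact Finset.disjoint_left.1 (hS.disj p hp q hq hne T hT T' hT') hwT hwT'
      exact_mod_cast this
    linarith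
  · intro p hp T hT
    have h1 := hm p hp T hT
    rw [ins_MM hw hiso]
    by_cases hwT : w ∈ T
    · have : ∃ T ∈ O p, w ∈ T := ⟨T, hT, hwT⟩
      simp only [this, hwT, if_true]
      linarith
    · simp only [hwT, if_false]
      split_ifs <;> linarith

/-- It suffices to consider full sets. -/
theorem wlog_fullK (hS : Slots G A P O)
    (h : ∀ D, Stab G A D → Full G A D → SlotRowK κ G A P O D) {D : Finset α} (hD : Stab G A D) :
    SlotRowK κ G A P O D := by
  suffices H : ∀ n : ℕ, ∀ D : Finset α, Stab G A D → A.card - D.card = n →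
      SlotRowK κ G A P O D from H _ D hD rfl
  intro n
  induction n using Nat.strong_induction_on with
  | _ n ih =>
    intro D hD hn
    by_cases hf : Full G A D
    · exact h D hD hf
    · unfold Full at hf
      simp only [not_forall, not_exists, not_and] at hf
      obtain ⟨w, hw, hiso⟩ := hf
      have hs := ins_stab hD hw
      have hcard : (insert w D).card = D.card + 1 := Finset.card_insert_of_notMem hw.2.1
      have hle : (insert w D).card ≤ A.card := Finset.card_le_card hs.1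
      have hlt : A.card - (insert w D).card < n := by omega
      exact row_plusK hS hw hiso (ih _ hlt (insert w D) hs rfl)

/-- Interior cores without split slots. -/
theorem ic_rowK {u t t' : α} (h : IC G A D u t t') (hPr : Prism G A) (hf : Full G A D)
    (hS : Slots G A P O) (hne : ∀ p ∈ P, (O p).Nonempty)
    (hF : ∀ F, MaxS G A F → SlotRowK κ G A P O F)
    (hns : ∀ p ∈ P, ¬ Split G A D (O p) t t') : SlotRowK κ G A P O D := by
  intro m hm
  have hex : ∀ p, ∃ f f' : ℤ, p ∈ P → (∀ T ∈ O p, f ≤ MM G A (ext G A D t) T) ∧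
      (∀ T ∈ O p, f' ≤ MM G A (ext G A D t') T) ∧ 2 * m p ≤ f + f' := by
    intro p
    by_cases hp : p ∈ P
    · obtain ⟨f, f', h1⟩ := h.slot hPr hf (hne p hp)
        (fun T hT => ⟨hS.sub p hp T hT, hS.clq p hp T hT⟩) (hns p hp) (hm p hp)
      exact ⟨f, f', fun _ => h1⟩
    · exact ⟨0, 0, fun h1 => absurd h1 hp⟩
  choose f f' hff using hex
  have r1 : ∑ p ∈ P, f p ≤ cc G A (ext G A D t) + κ :=
    hF _ (h.maxS hPr hf) f (fun p hp => (hff p hp).1)
  have r2 : ∑ p ∈ P, f' p ≤ cc G A (ext G A D t') + κ :=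
    hF _ (h.symm.maxS hPr hf) f' (fun p hp => (hff p hp).2.1)
  have r3 : 2 * ∑ p ∈ P, m p ≤ ∑ p ∈ P, f p + ∑ p ∈ P, f' p := by
    rw [Finset.mul_sum, ← Finset.sum_add_distrib]
    exact Finset.sum_le_sum (fun p hp => (hff p hp).2.2)
  have r4 := h.cc_add hPr hf
  omega

end plus

section nosplit

variable {Z : ZLine G A col} {D : Finset α} {u t t' p w1 w2 v2 : α}

theorem loc_false (Z : ZLine G A col) {b : ℤ} {Op : Finset (Finset α)} (hOp : Op = Z.bl b)
    {j b0 b2 : ℤ} (h : Loc G A col Z D Op j u t' w2 v2 b0 b2) : False := by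
  have h1 := h.Q1
  have h2 := h.T2
  rw [hOp] at h1 h2
  have e1 := Z.uniq _ _ _ h1 (Z.Q_mem h.lk)
  have e2 := Z.uniq _ _ _ h2 h.bT2
  have e3 := h.b2
  omega

theorem splitAt_false (hic : IC G A D u t t') (hC : PC G A col) (hf : Full G A D) {b : ℤ}
    (hsp : SplitAt G A D (Z.bl b) p t t' w1 w2 v2) : False := by
  have hT : ∀ T ∈ Z.bl b, IsT G A T := fun T hT => Z.isT b T hT
  have hpA : p ∈ A := nb_sub hsp.pN
  have hne : col p ≠ col t := hC.col p hpA t hic.tA hsp.pt
  rcases z3_cases _ _ hne with hc | hc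
  · have hcol := hic.colours hC hf hT hsp
    obtain ⟨j, b0, b2, hpj, _, hloc⟩ := loc_of (Z := Z) hic hC hT hsp hcol hc
    exact loc_false Z rfl hloc
  · have hcol := hic.colours hC.rev hf hT hsp
    have hc' : rcol col t = rcol col p + 1 := (z3_neg1 _ _).2 hc
    obtain ⟨j, b0, b2, hpj, _, hloc⟩ := loc_of (Z := Z.mirror hC) hic hC.rev hT hsp hcol hc'
    refine loc_false (Z.mirror hC) (b := -b) ?_ hloc
    rw [Z.mirror_bl, neg_neg]

/-- A block is not split. -/
theorem not_split (hic : IC G A D u t t') (hC : PC G A col) (hf : Full G A D) {b : ℤ}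
    (hp : ∀ T ∈ Z.bl b, p ∈ T) : ¬ Split G A D (Z.bl b) t t' := by
  intro hsp
  have hT : ∀ T ∈ Z.bl b, IsT G A T := fun T hT => Z.isT b T hT
  rcases hic.split_adj hC hT hp hsp with ⟨w1, w2, v2, h⟩ | ⟨w1, w2, v2, h⟩
  · exact splitAt_false hic hC hf h
  · exact splitAt_false hic.symm hC hf h

end nosplit

section hits

variable {Z : ZLine G A col} {S : Sys}

/-- the slots with the hit block only -/
noncomputable def Hsl (Z : ZLine G A col) (S : Sys) (v : α) : Finset (Finset α) :=
  open Classical in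
  A.powerset.filter (fun T => ∃ i ∈ S.P, Z.h i = v ∧ T ∈ Z.bl (S.t i))

theorem mem_Hsl (hok : S.Ok) (hex : S.ex = fun b => (Z.bl b).Nonempty) {i : ℤ} (hi : i ∈ S.P)
    {T : Finset α} : T ∈ Hsl Z S (Z.h i) ↔ T ∈ Z.bl (S.t i) := by
  classical
  unfold Hsl
  rw [Finset.mem_filter, Finset.mem_powerset]
  constructor
  · rintro ⟨_, j, hj, h1, h2⟩
    rw [h_inj hok hex hj hi h1] at h2
    exact h2
  · intro h
    exact ⟨(Z.isT _ T h).1, i, hi, rfl, h⟩

theorem Hsl_eq (hok : S.Ok) (hex : S.ex = fun b => (Z.bl b).Nonempty) {i : ℤ} (hi : i ∈ S.P) :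
    Hsl Z S (Z.h i) = Z.bl (S.t i) := by
  ext T
  exact mem_Hsl hok hex hi

theorem slots_hits (hok : S.Ok) (hex : S.ex = fun b => (Z.bl b).Nonempty) :
    Slots G A (Psl Z S) (Hsl Z S) := by
  have hs := slots_sl hok hex
  have hsub : ∀ p ∈ Psl Z S, ∀ T ∈ Hsl Z S p, T ∈ Osl Z S p := by
    intro p hp T hT
    obtain ⟨i, hi, rfl⟩ := Finset.mem_image.1 hp
    rw [mem_Hsl hok hex hi] at hT
    exact (mem_Osl hok hex hi).2 ⟨_, hok.tO i hi, hT⟩
  exact ⟨fun p hp T hT => hs.sub p hp T (hsub p hp T hT),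
    fun p hp T hT => hs.clq p hp T (hsub p hp T hT),
    fun p hp T hT => hs.hub p hp T (hsub p hp T hT),
    fun p hp q hq hpq T hT T' hT' => hs.disj p hp q hq hpq T (hsub p hp T hT) T'
      (hsub q hq T' hT')⟩

theorem ne_hits (hok : S.Ok) (hex : S.ex = fun b => (Z.bl b).Nonempty) :
    ∀ p ∈ Psl Z S, (Hsl Z S p).Nonempty := by
  intro p hp
  obtain ⟨i, hi, rfl⟩ := Finset.mem_image.1 hp
  have h2 := (hok.tO i hi).1
  rw [hex] at h2
  rw [Hsl_eq hok hex hi]
  exact h2

/-- rows for the hits: `mn` version -/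
theorem slotRowK_iff (hok : S.Ok) (hex : S.ex = fun b => (Z.bl b).Nonempty) {κ : ℤ}
    {D : Finset α} : SlotRowK κ G A (Psl Z S) (Hsl Z S) D ↔
      ∑ p ∈ S.P, mn Z D (S.t p) ≤ cc G A D + κ := by
  classical
  have hsum : ∀ m : α → ℤ, ∑ p ∈ Psl Z S, m p = ∑ i ∈ S.P, m (Z.h i) := by
    intro m
    unfold Psl
    rw [Finset.sum_image]
    intro i hi j hj e
    exact h_inj hok hex (by simpa using hi) (by simpa using hj) e
  constructor
  · intro h
    have hch : ∀ v : α, ∃ i : ℤ, v ∈ Psl Z S → i ∈ S.P ∧ Z.h i = v := by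
      intro v
      by_cases hv : v ∈ Psl Z S
      · obtain ⟨i, hi, e⟩ := Finset.mem_image.1 hv
        exact ⟨i, fun _ => ⟨hi, e⟩⟩
      · exact ⟨0, fun h => absurd h hv⟩
    choose f hf using hch
    have hfi : ∀ i ∈ S.P, f (Z.h i) = i := by
      intro i hi
      have h1 := hf (Z.h i) (Finset.mem_image.2 ⟨i, hi, rfl⟩)
      exact h_inj hok hex h1.1 hi h1.2
    have h1 := h (fun v => mn Z D (S.t (f v))) ?_
    · rw [hsum] at h1
      rw [Finset.sum_congr rfl fun i hi => by rw [hfi i hi]] at h1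
      exact h1
    · intro p hp T hT
      obtain ⟨i, hi, rfl⟩ := Finset.mem_image.1 hp
      rw [mem_Hsl hok hex hi] at hT
      change mn Z D (S.t (f (Z.h i))) ≤ _
      rw [hfi i hi]
      exact mn_le Z D hT
  · intro h m hm
    rw [hsum]
    refine le_trans (Finset.sum_le_sum fun i hi => ?_) h
    have hne : (Z.bl (S.t i)).Nonempty := by
      have h2 := (hok.tO i hi).1
      rw [hex] at h2
      exact h2
    obtain ⟨T, hT, e⟩ := exists_mn Z D hne
    rw [← e]
    exact hm (Z.h i) (Finset.mem_image.2 ⟨i, hi, rfl⟩) T ((mem_Hsl hok hex hi).2 hT)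

/-- **Low** for all stable sets from the rows of maximal stable sets and of full nonempty sets
without interior core. -/
theorem low_all (hC : PC G A col) (hok : S.Ok) (hex : S.ex = fun b => (Z.bl b).Nonempty)
    (hF : ∀ F, MaxS G A F → ∑ p ∈ S.P, mn Z F (S.t p) ≤ cc G A F + 2)
    (hN : ∀ D, Stab G A D → D.Nonempty → Full G A D → (∀ u t t', ¬ IC G A D u t t') →
      ∑ p ∈ S.P, mn Z D (S.t p) ≤ cc G A D + 2) {X : Finset α} (hX : Stab G A X) :
    ∑ p ∈ S.P, mn Z X (S.t p) ≤ cc G A X + 2 := by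
  have hS := slots_hits (Z := Z) hok hex
  have hne := ne_hits (Z := Z) hok hex
  rw [← slotRowK_iff hok hex]
  refine wlog_fullK hS ?_ hX
  intro D hD hf
  by_cases h0 : D.Nonempty
  · by_cases hic : ∃ u t t', IC G A D u t t'
    · obtain ⟨u, t, t', hic⟩ := hic
      refine ic_rowK hic hC.pr hf hS hne (fun F h => (slotRowK_iff hok hex).2 (hF F h)) ?_
      intro p hp
      obtain ⟨i, hi, rfl⟩ := Finset.mem_image.1 hp
      rw [Hsl_eq hok hex hi]
      refine not_split (p := Z.h i) hic hC hf ?_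
      intro T hT
      exact Z.mem' hT (t_inS hok hi)
    · push Not at hic
      exact (slotRowK_iff hok hex).2 (hN D hD h0 hf hic)
  · rw [Finset.not_nonempty_iff_eq_empty] at h0
    subst h0
    intro m hm
    have h1 : cc G A (∅ : Finset α) = 0 := by
      unfold cc nb
      simp
    have h2 : ∀ T, MM G A (∅ : Finset α) T = 0 := by
      intro T
      unfold MM nb
      simp
    rw [h1]
    have h3 : ∑ p ∈ Psl Z S, m p ≤ ∑ p ∈ Psl Z S, (0 : ℤ) := by
      refine Finset.sum_le_sum fun p hp => ?_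
      obtain ⟨T, hT⟩ := hne p hp
      have := hm p hp T hT
      rw [h2] at this
      exact this
    simp at h3
    omega

end hits

end Pool.Agent.H.MP_ebc13b_lc.h73
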