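import Pool.Agent.H.MP_ebc13b_lc.h73.Slt
import Pool.Agent.H.MP_ebc13b_lc.h46.Tri
import Pool.Agent.H.MP_ebc13b_lc.h53.Alp

/-!
Rows of stable sets as rows on the blocks.
-/

namespace Pool.Agent.H.MP_ebc13b_lc.h73

open Pool.Agent.H.MP_ebc13b_lc.h46
open Pool.Agent.H.MP_ebc13b_lc.h53
open Pool.Agent.H.MP_ebc13b_lc.h61b

variable {α : Type*} [DecidableEq α] {G : SimpleGraph α} {A : Finset α} {col : α → ZMod 3}

/-- the mass of a block -/
noncomputable def zb (Z : ZLine G A col) (z : Finset α → ℝ) (b : ℤ) : ℝ := ∑ T ∈ Z.bl b, z T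

/-- the value of the block `b` for the row of `D` -/
noncomputable def vv (Z : ZLine G A col) (D : Finset α) (b : ℤ) : ℕ := (mn Z D b - 1).toNat

variable {Z : ZLine G A col}

/-- sums over the triangles as sums over the blocks -/
theorem sum_blocks {N : ℤ} (bd : ∀ b, (Z.bl b).Nonempty → -N ≤ b ∧ b ≤ N) {z : Finset α → ℝ}
    (hz : ∀ T, z T ≠ 0 → IsT G A T) (f : Finset α → ℝ) :
    ∑ T ∈ A.powerset, z T * f T = ∑ b ∈ Finset.Icc (-N) N, ∑ T ∈ Z.bl b, z T * f T := by
  classical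
  rw [← Finset.sum_biUnion]
  · symm
    apply Finset.sum_subset
    · intro T hT
      obtain ⟨b, _, hT⟩ := Finset.mem_biUnion.1 hT
      exact Finset.mem_powerset.2 (Z.isT b T hT).1
    · intro T _ hT
      by_contra hne
      apply hT
      have h1 : z T ≠ 0 := fun h => hne (by rw [h, zero_mul])
      obtain ⟨b, hb⟩ := Z.ex T (hz T h1)
      have h2 := bd b ⟨T, hb⟩
      exact Finset.mem_biUnion.2 ⟨b, Finset.mem_Icc.2 h2, hb⟩
  · intro b _ b' _ hne
    simp only [Function.onFun]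
    rw [Finset.disjoint_left]
    intro T hT hT'
    exact hne (Z.uniq T b b' hT hT')

theorem sum_blocks' {N : ℤ} (bd : ∀ b, (Z.bl b).Nonempty → -N ≤ b ∧ b ≤ N) {z : Finset α → ℝ}
    (hz : ∀ T, z T ≠ 0 → IsT G A T) :
    ∑ T ∈ A.powerset, z T = ∑ b ∈ Finset.Icc (-N) N, zb Z z b := by
  have h := sum_blocks bd hz (fun _ => 1)
  simp only [mul_one] at h
  exact h

theorem zb_nonneg {z : Finset α → ℝ} (h : ∀ T, 0 ≤ z T) (b : ℤ) : 0 ≤ zb Z z b :=
  Finset.sum_nonneg fun T _ => h T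

theorem zb_zero (z : Finset α → ℝ) {b : ℤ} (h : ¬ (Z.bl b).Nonempty) : zb Z z b = 0 := by
  unfold zb
  rw [Finset.not_nonempty_iff_eq_empty.1 h, Finset.sum_empty]

/-- the load of a hub is the mass of its star -/
theorem ld_star {z : Finset α → ℝ} (hz : ∀ T, z T ≠ 0 → IsT G A T) {i : ℤ} (hi : Z.re i) :
    ld A z (Z.h i) = zb Z z (2 * i - 1) + zb Z z (2 * i) + zb Z z (2 * i + 1) := by
  classical
  obtain ⟨N, bd⟩ := Z.bd
  have bd' : ∀ b, (Z.bl b).Nonempty → -(max N (2 * |i| + 1)) ≤ b ∧ b ≤ max N (2 * |i| + 1) := by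
    intro b hb
    have := bd b hb
    have := le_max_left N (2 * |i| + 1)
    constructor <;> linarith [(bd b hb).1, (bd b hb).2]
  have h1 : ld A z (Z.h i) = ∑ T ∈ A.powerset, z T * (if Z.h i ∈ T then 1 else 0) := by
    unfold ld
    refine Finset.sum_congr rfl fun T _ => ?_
    split_ifs <;> simp
  rw [h1, sum_blocks bd' hz]
  have h2 : ∀ b, ∑ T ∈ Z.bl b, z T * (if Z.h i ∈ T then 1 else 0) =
      if inS i b then zb Z z b else 0 := by
    intro b
    split_ifs with h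
    · unfold zb
      refine Finset.sum_congr rfl fun T hT => ?_
      rw [if_pos (Z.mem' hT h), mul_one]
    · apply Finset.sum_eq_zero
      intro T hT
      rw [if_neg (fun h' => h ((Z.hub_iff hi hT).1 h')), mul_zero]
  rw [Finset.sum_congr rfl fun b _ => h2 b, ← Finset.sum_filter]
  have h3 : (Finset.Icc (-(max N (2 * |i| + 1))) (max N (2 * |i| + 1))).filter (fun b => inS i b) =
      {2 * i - 1, 2 * i, 2 * i + 1} := by
    have h4 := le_max_right N (2 * |i| + 1)
    have h5 := le_abs_self i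
    have h6 := neg_abs_le i
    ext b
    simp only [Finset.mem_filter, Finset.mem_Icc, Finset.mem_insert, Finset.mem_singleton]
    constructor
    · rintro ⟨_, h⟩
      exact h
    · intro h
      refine ⟨?_, h⟩
      constructor <;> omega
  rw [h3, Finset.sum_insert, Finset.sum_insert, Finset.sum_singleton, ← add_assoc]
  · simp only [Finset.mem_singleton]; omega
  · simp only [Finset.mem_insert, Finset.mem_singleton]; omega

theorem mn_pos (hC : PC G A col) {D : Finset α} (hD : Stab G A D) (hne : D.Nonempty) {b : ℤ}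
    (hb : (Z.bl b).Nonempty) : 1 ≤ mn Z D b := by
  obtain ⟨T, hT, h⟩ := exists_mn Z D hb
  rw [← h]
  exact MM_pos hC.pr hD hne (Z.isT b T hT).1 (Z.isT b T hT).2

theorem vv_eq (hC : PC G A col) {D : Finset α} (hD : Stab G A D) (hne : D.Nonempty) {b : ℤ}
    (hb : (Z.bl b).Nonempty) : ((vv Z D b : ℕ) : ℤ) = mn Z D b - 1 := by
  have := mn_pos hC hD hne hb
  unfold vv
  omega

/-- The row of a nonempty stable set holds for the block masses. -/
theorem own_of_lp (hC : PC G A col) {S : Sys} {z : Finset α → ℝ} {N : ℤ} {δ ε : ℝ}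
    (hon : On Z (zb Z z) N δ ε S) (hz0 : ∀ T, 0 ≤ z T) (hz : ∀ T, z T ≠ 0 → IsT G A T)
    {D : Finset α} (hD : Stab G A D) (hne : D.Nonempty)
    (hrow : ∑ T ∈ A.powerset, z T * (MM G A D T : ℝ) ≤ (cc G A D : ℝ) + ε) :
    S.Own (vv Z D) (cc G A D - S.P.card) := by
  have bd : ∀ b, (Z.bl b).Nonempty → -N ≤ b ∧ b ≤ N := by
    intro b hb
    have := hon.ok.bd b (by rw [hon.ex]; exact hb)
    rw [hon.K] at this
    exact this
  have htot : ∑ T ∈ A.powerset, z T = (S.P.card : ℝ) := by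
    rw [sum_blocks' bd hz, ← hon.ok.tot, hon.K, hon.z]
  unfold Sys.Own
  rw [hon.K, hon.z, hon.ε]
  have h1 : ∑ x ∈ Finset.Icc (-N) N, (vv Z D x : ℝ) * zb Z z x ≤
      ∑ x ∈ Finset.Icc (-N) N, ∑ T ∈ Z.bl x, z T * ((MM G A D T : ℝ) - 1) := by
    refine Finset.sum_le_sum fun x _ => ?_
    by_cases hx : (Z.bl x).Nonempty
    · have h2 : ((vv Z D x : ℕ) : ℝ) = (mn Z D x : ℝ) - 1 := by
        have := vv_eq hC hD hne hx
        exact_mod_cast this
      rw [h2]
      unfold zb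
      rw [Finset.mul_sum]
      refine Finset.sum_le_sum fun T hT => ?_
      have h3 : (mn Z D x : ℝ) ≤ (MM G A D T : ℝ) := by exact_mod_cast mn_le Z D hT
      nlinarith [hz0 T]
    · rw [zb_zero z hx, mul_zero, Finset.not_nonempty_iff_eq_empty.1 hx, Finset.sum_empty]
  rw [← sum_blocks bd hz (fun T => (MM G A D T : ℝ) - 1)] at h1
  have h4 : ∑ T ∈ A.powerset, z T * ((MM G A D T : ℝ) - 1) =
      ∑ T ∈ A.powerset, z T * (MM G A D T : ℝ) - ∑ T ∈ A.powerset, z T := by
    rw [← Finset.sum_sub_distrib]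
    exact Finset.sum_congr rfl fun T _ => by ring
  rw [h4, htot] at h1
  push_cast
  linarith

/-- The row at the level of the blocks gives the row of the slots. -/
theorem slotRow_of_row (hC : PC G A col) {S : Sys} (hok : S.Ok)
    (hex : S.ex = fun b => (Z.bl b).Nonempty) {D : Finset α} (hD : Stab G A D)
    (hne : D.Nonempty) (h : S.Row (vv Z D) (cc G A D - S.P.card)) :
    SlotRow G A (Psl Z S) (Osl Z S) D := by
  intro m hm
  have h1 : ∑ p ∈ Psl Z S, m p = ∑ i ∈ S.P, m (Z.h i) := by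
    unfold Psl
    rw [Finset.sum_image]
    intro i hi j hj e
    exact h_inj hok hex (by simpa using hi) (by simpa using hj) e
  have h2 : ∀ i ∈ S.P, m (Z.h i) ≤ (S.w (vv Z D) i : ℤ) + 1 := by
    intro i hi
    have hset : {n | ∃ b, S.O i b ∧ vv Z D b = n}.Nonempty :=
      ⟨_, S.t i, hok.tO i hi, rfl⟩
    obtain ⟨b, hb, hv⟩ := Nat.sInf_mem hset
    have hbne : (Z.bl b).Nonempty := by
      have := hb.1
      rw [hex] at this
      exact this
    obtain ⟨T, hT, hTm⟩ := exists_mn Z D hbne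
    have h3 := hm (Z.h i) (Finset.mem_image.2 ⟨i, hi, rfl⟩) T ((mem_Osl hok hex hi).2 ⟨b, hb, hT⟩)
    have h4 := vv_eq hC hD hne hbne
    have h5 : S.w (vv Z D) i = vv Z D b := hv.symm
    rw [h5]
    omega
  rw [h1]
  calc ∑ i ∈ S.P, m (Z.h i) ≤ ∑ i ∈ S.P, ((S.w (vv Z D) i : ℤ) + 1) := Finset.sum_le_sum h2
    _ = ∑ i ∈ S.P, (S.w (vv Z D) i : ℤ) + S.P.card := by
        rw [Finset.sum_add_distrib]; simp
    _ ≤ cc G A D := by
        unfold Sys.Row at h
        linarith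

/-- The sum of the values of the hits. -/
theorem Hs_eq (hC : PC G A col) {S : Sys} (hok : S.Ok)
    (hex : S.ex = fun b => (Z.bl b).Nonempty) {D : Finset α} (hD : Stab G A D)
    (hne : D.Nonempty) : S.Hs (vv Z D) = ∑ p ∈ S.P, mn Z D (S.t p) - S.P.card := by
  unfold Sys.Hs
  have h1 : ∀ p ∈ S.P, (vv Z D (S.t p) : ℤ) = mn Z D (S.t p) - 1 := by
    intro p hp
    apply vv_eq hC hD hne
    have := (hok.tO p hp).1
    rw [hex] at this
    exact this
  rw [Finset.sum_congr rfl h1, Finset.sum_sub_distrib]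
  simp

/-- Rows satisfied by the hits are satisfied by the slots. -/
theorem row_of_hits' {S : Sys} (hok : S.Ok) {v : ℤ → ℕ} {r : ℤ} (hH : S.Hs v ≤ r) : S.Row v r := by
  unfold Sys.Row
  refine le_trans ?_ hH
  unfold Sys.Hs
  refine Finset.sum_le_sum fun p hp => ?_
  have : S.w v p ≤ v (S.t p) := Nat.sInf_le ⟨S.t p, hok.tO p hp, rfl⟩
  exact_mod_cast this

end Pool.Agent.H.MP_ebc13b_lc.h73
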