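import Pool.Agent.H.MP_ebc13b_lc.h73.SysEx
import Pool.Agent.H.MP_ebc13b_lc.h46.ICDefs

/-!
The slot system of vertices and triangles given by a slot system on the blocks.
-/

namespace Pool.Agent.H.MP_ebc13b_lc.h73

open Pool.Agent.H.MP_ebc13b_lc.h46
open Pool.Agent.H.MP_ebc13b_lc.h53
open Pool.Agent.H.MP_ebc13b_lc.h61b

variable {α : Type*} [DecidableEq α] {G : SimpleGraph α} {A : Finset α} {col : α → ZMod 3}

section sys

variable {S : Sys}

theorem O_inS {i b : ℤ} (h : S.O i b) : inS i b := by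
  rw [inS_iff]
  rcases h.2 with rfl | ⟨rfl, _⟩ | ⟨rfl, _⟩ <;> constructor <;> omega

theorem t_inS (hok : S.Ok) {i : ℤ} (hi : i ∈ S.P) : inS i (S.t i) := by
  have := hok.tst i hi
  exact this

/-- options of different slots have no common hub -/
theorem O_disj {p q b b' : ℤ} (hp : p ∈ S.P) (hq : q ∈ S.P) (hpq : p ≠ q) (h1 : S.O p b)
    (h2 : S.O q b') (i : ℤ) (hi : inS i b) (hj : inS i b') : False := by
  rw [inS_iff] at hi hj
  obtain ⟨e1, h1⟩ := h1
  obtain ⟨e2, h2⟩ := h2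
  rcases h1 with rfl | ⟨rfl, h3, h4⟩ | ⟨rfl, h3, h4⟩ <;>
    rcases h2 with rfl | ⟨rfl, h5, h6⟩ | ⟨rfl, h5, h6⟩
  · omega
  · have : q + 1 = p := by omega
    rw [this] at h5; exact h5 hp
  · have : q - 1 = p := by omega
    rw [this] at h5; exact h5 hp
  · have : p + 1 = q := by omega
    rw [this] at h3; exact h3 hq
  · have h7 : p + 1 = q ∨ q + 1 = p := by omega
    rcases h7 with h7 | h7
    · rw [h7] at h3; exact h3 hq
    · rw [h7] at h5; exact h5 hp
  · have h7 : p + 1 = q ∨ q = p + 2 := by omega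
    rcases h7 with h7 | h7
    · rw [h7] at h3; exact h3 hq
    · subst h7
      have a1 : p + 2 - 2 = p := by ring
      have a2 : 2 * (p + 2) - 3 = 2 * p + 1 := by ring
      have a3 : p + 2 - 1 = p + 1 := by ring
      have a4 : 2 * (p + 2) - 1 = 2 * p + 3 := by ring
      rw [a1, a2, a3] at h6
      rw [a4] at e2
      exact h6 e1 hp (h4 e2 hq)
  · have : p - 1 = q := by omega
    rw [this] at h3; exact h3 hq
  · have h7 : q + 1 = p ∨ p = q + 2 := by omega
    rcases h7 with h7 | h7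
    · rw [h7] at h5; exact h5 hp
    · subst h7
      have a1 : q + 2 - 2 = q := by ring
      have a2 : 2 * (q + 2) - 3 = 2 * q + 1 := by ring
      have a3 : q + 2 - 1 = q + 1 := by ring
      have a4 : 2 * (q + 2) - 1 = 2 * q + 3 := by ring
      rw [a1, a2, a3] at h4
      rw [a4] at e1
      exact h4 e2 hq (h6 e1 hp)
  · have h7 : p - 1 = q ∨ q - 1 = p := by omega
    rcases h7 with h7 | h7
    · rw [h7] at h3; exact h3 hq
    · rw [h7] at h5; exact h5 hp

/-- no hit right of an option `2 i + 1` of `i` -/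
theorem gap_right (hok : S.Ok) {i : ℤ} (hi : i ∈ S.P) (h : S.O i (2 * i + 1)) :
    S.z (2 * i + 2) + S.z (2 * i + 3) ≤ 1 - 2 * S.δ := by
  have h1 : S.N (2 * i + 2) (2 * i + 4) = 0 := by
    unfold Sys.N
    have h2 : (S.P.filter fun p => 2 * i + 2 ≤ S.t p ∧ S.t p < 2 * i + 4) = ∅ := by
      rw [Finset.filter_eq_empty_iff]
      intro p hp hc
      have hO := hok.tO p hp
      have hne : i ≠ p := by
        rintro rfl
        have := hok.tst i hi
        omega
      apply O_disj hi hp hne h hO (i + 1)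
      · rw [inS_iff]; constructor <;> omega
      · rw [inS_iff]; constructor <;> omega
    rw [h2]
    simp
  have h3 := hok.cnt2 (2 * i + 2) (2 * i + 4) (by omega)
  rw [h1] at h3
  unfold Sys.m at h3
  have h4 : Finset.Ico (2 * i + 2) (2 * i + 4) = {2 * i + 2, 2 * i + 3} := by
    ext x
    simp only [Finset.mem_Ico, Finset.mem_insert, Finset.mem_singleton]
    omega
  rw [h4, Finset.sum_pair (by omega)] at h3
  push_cast at h3
  linarith

/-- no hit left of an option `2 i - 1` of `i` -/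
theorem gap_left (hok : S.Ok) {i : ℤ} (hi : i ∈ S.P) (h : S.O i (2 * i - 1)) :
    S.z (2 * i - 2) + S.z (2 * i - 3) ≤ 1 - 2 * S.δ := by
  have h1 : S.N (2 * i - 3) (2 * i - 1) = 0 := by
    unfold Sys.N
    have h2 : (S.P.filter fun p => 2 * i - 3 ≤ S.t p ∧ S.t p < 2 * i - 1) = ∅ := by
      rw [Finset.filter_eq_empty_iff]
      intro p hp hc
      have hO := hok.tO p hp
      have hne : i ≠ p := by
        rintro rfl
        have := hok.tst i hi
        omega
      apply O_disj hi hp hne h hO (i - 1)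
      · rw [inS_iff]; constructor <;> omega
      · rw [inS_iff]; constructor <;> omega
    rw [h2]
    simp
  have h3 := hok.cnt2 (2 * i - 3) (2 * i - 1) (by omega)
  rw [h1] at h3
  unfold Sys.m at h3
  have h4 : Finset.Ico (2 * i - 3) (2 * i - 1) = {2 * i - 3, 2 * i - 2} := by
    ext x
    simp only [Finset.mem_Ico, Finset.mem_insert, Finset.mem_singleton]
    omega
  rw [h4, Finset.sum_pair (by omega)] at h3
  push_cast at h3
  linarith

theorem own_left {i : ℤ} (hex : S.ex (2 * i - 1)) (h : ¬ S.O i (2 * i - 1)) :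
    i - 1 ∈ S.P ∨ (i - 2 ∈ S.P ∧ S.O (i - 2) (2 * i - 3)) := by
  by_cases h1 : i - 1 ∈ S.P
  · exact Or.inl h1
  · right
    by_cases h2 : S.ex (2 * i - 3) ∧ i - 2 ∈ S.P ∧ S.L (i - 1)
    · obtain ⟨h2, h3, h4⟩ := h2
      refine ⟨h3, h2, Or.inr (Or.inl ⟨by ring, ?_, ?_⟩)⟩
      · have e : i - 2 + 1 = i - 1 := by ring
        rw [e]; exact h1
      · intro _ _
        have e : i - 2 + 1 = i - 1 := by ring
        rw [e]; exact h4
    · exfalso
      apply h
      refine ⟨hex, Or.inr (Or.inr ⟨rfl, h1, ?_⟩)⟩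
      intro h3 h4 h5
      exact h2 ⟨h3, h4, h5⟩

theorem own_right {i : ℤ} (hex : S.ex (2 * i + 1)) (h : ¬ S.O i (2 * i + 1)) :
    i + 1 ∈ S.P ∨ (i + 2 ∈ S.P ∧ S.O (i + 2) (2 * i + 3)) := by
  by_cases h1 : i + 1 ∈ S.P
  · exact Or.inl h1
  · right
    by_cases h2 : S.ex (2 * i + 3) ∧ i + 2 ∈ S.P ∧ ¬ S.L (i + 1)
    · obtain ⟨h2, h3, h4⟩ := h2
      refine ⟨h3, h2, Or.inr (Or.inr ⟨by ring, ?_, ?_⟩)⟩
      · have e : i + 2 - 1 = i + 1 := by ring
        rw [e]; exact h1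
      · intro _ _
        have e : i + 2 - 1 = i + 1 := by ring
        rw [e]; exact h4
    · exfalso
      apply h
      refine ⟨hex, Or.inr (Or.inl ⟨rfl, h1, ?_⟩)⟩
      intro h3 h4
      by_contra h5
      exact h2 ⟨h3, h4, h5⟩

end sys

section slt

variable (Z : ZLine G A col) (S : Sys)

/-- the slots -/
def Psl : Finset α := S.P.image Z.h

open Classical in
/-- the options -/
noncomputable def Osl (v : α) : Finset (Finset α) :=
  A.powerset.filter (fun T => ∃ i ∈ S.P, Z.h i = v ∧ ∃ b, S.O i b ∧ T ∈ Z.bl b)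

variable {Z S}

theorem re_P (hok : S.Ok) (hex : S.ex = fun b => (Z.bl b).Nonempty) {i : ℤ} (hi : i ∈ S.P) :
    Z.re i := by
  have h1 := (hok.tO i hi).1
  rw [hex] at h1
  exact ⟨S.t i, t_inS hok hi, h1⟩

theorem h_inj (hok : S.Ok) (hex : S.ex = fun b => (Z.bl b).Nonempty) {i j : ℤ} (hi : i ∈ S.P)
    (hj : j ∈ S.P) (h : Z.h i = Z.h j) : i = j :=
  Z.hinj (re_P hok hex hi) (re_P hok hex hj) h

theorem mem_Osl (hok : S.Ok) (hex : S.ex = fun b => (Z.bl b).Nonempty) {i : ℤ} (hi : i ∈ S.P)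
    {T : Finset α} : T ∈ Osl Z S (Z.h i) ↔ ∃ b, S.O i b ∧ T ∈ Z.bl b := by
  classical
  unfold Osl
  rw [Finset.mem_filter, Finset.mem_powerset]
  constructor
  · rintro ⟨_, j, hj, h1, h2⟩
    rw [h_inj hok hex hj hi h1] at h2
    exact h2
  · rintro ⟨b, h1, h2⟩
    exact ⟨(Z.isT b T h2).1, i, hi, rfl, b, h1, h2⟩

theorem card_Psl (hok : S.Ok) (hex : S.ex = fun b => (Z.bl b).Nonempty) :
    (Psl Z S).card = S.P.card := by
  unfold Psl
  apply Finset.card_image_of_injOn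
  intro i hi j hj h
  exact h_inj hok hex (by simpa using hi) (by simpa using hj) h

theorem slots_sl (hok : S.Ok) (hex : S.ex = fun b => (Z.bl b).Nonempty) :
    Slots G A (Psl Z S) (Osl Z S) := by
  refine ⟨?_, ?_, ?_, ?_⟩
  · intro p hp T hT
    obtain ⟨i, hi, rfl⟩ := Finset.mem_image.1 hp
    obtain ⟨b, _, h2⟩ := (mem_Osl hok hex hi).1 hT
    exact (Z.isT b T h2).1
  · intro p hp T hT
    obtain ⟨i, hi, rfl⟩ := Finset.mem_image.1 hp
    obtain ⟨b, _, h2⟩ := (mem_Osl hok hex hi).1 hT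
    exact (Z.isT b T h2).2
  · intro p hp T hT
    obtain ⟨i, hi, rfl⟩ := Finset.mem_image.1 hp
    obtain ⟨b, h1, h2⟩ := (mem_Osl hok hex hi).1 hT
    exact Z.mem' h2 (O_inS h1)
  · intro p hp q hq hpq T hT T' hT'
    obtain ⟨i, hi, rfl⟩ := Finset.mem_image.1 hp
    obtain ⟨j, hj, rfl⟩ := Finset.mem_image.1 hq
    obtain ⟨b, h1, h2⟩ := (mem_Osl hok hex hi).1 hT
    obtain ⟨b', h1', h2'⟩ := (mem_Osl hok hex hj).1 hT'
    have hij : i ≠ j := by rintro rfl; exact hpq rfl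
    apply Z.disj_of h2 h2'
    · rintro rfl
      have := Z.uniq _ _ _ h2 h2'
      subst this
      exact O_disj hi hj hij h1 h1' i (O_inS h1) (O_inS h1)
    · intro k hk hk'
      exact O_disj hi hj hij h1 h1' k hk hk'

theorem ne_sl (hok : S.Ok) (hex : S.ex = fun b => (Z.bl b).Nonempty) :
    ∀ p ∈ Psl Z S, (Osl Z S p).Nonempty := by
  intro p hp
  obtain ⟨i, hi, rfl⟩ := Finset.mem_image.1 hp
  have h1 := hok.tO i hi
  have h2 := h1.1
  rw [hex] at h2
  obtain ⟨T, hT⟩ := h2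
  exact ⟨T, (mem_Osl hok hex hi).2 ⟨_, h1, hT⟩⟩

theorem hub_sl (hok : S.Ok) (hex : S.ex = fun b => (Z.bl b).Nonempty) :
    ∀ p ∈ Psl Z S, ∃ i, Z.re i ∧ p = Z.h i := by
  intro p hp
  obtain ⟨i, hi, rfl⟩ := Finset.mem_image.1 hp
  exact ⟨i, re_P hok hex hi, rfl⟩

theorem mem_Psl (hok : S.Ok) (hex : S.ex = fun b => (Z.bl b).Nonempty) {i : ℤ} (hre : Z.re i) :
    Z.h i ∈ Psl Z S ↔ i ∈ S.P := by
  constructor
  · intro h
    obtain ⟨j, hj, e⟩ := Finset.mem_image.1 h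
    rw [← Z.hinj (re_P hok hex hj) hre e]
    exact hj
  · intro h
    exact Finset.mem_image.2 ⟨i, h, rfl⟩

theorem Q_Osl (hok : S.Ok) (hex : S.ex = fun b => (Z.bl b).Nonempty) {i j : ℤ} (hi : i ∈ S.P)
    (hl : Z.lk j) : Z.Q j ∈ Osl Z S (Z.h i) ↔ S.O i (2 * j + 1) := by
  rw [mem_Osl hok hex hi]
  constructor
  · rintro ⟨b, h1, h2⟩
    rw [Z.uniq _ _ _ (Z.Q_mem hl) h2]
    exact h1
  · intro h
    exact ⟨_, h, Z.Q_mem hl⟩

end slt

end Pool.Agent.H.MP_ebc13b_lc.h73
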